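import Pool.Agent.V5helper67.CK.Base

open Finset

namespace Pool.Agent.V5helper67.EC

open Pool.Agent.Helper120.EaModel Pool.Agent.V5helper67.EA

namespace Pm

/-- The subgraph of all edges is connected. -/
theorem conn (Q : Pm) : ((GG Q).subgraph Finset.univ).Connected :=
  ((tree_iff _).1 (T0_tree Q)).1.mono (sg_mono _ (subset_univ _))

end Pm

end Pool.Agent.V5helper67.EC
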