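import Pool.Agent.V5helper67.CK.Base

/-!
# The lower bound for general sizes of the first spoke and of the first bundle
-/

open Finset
open scoped ENNReal

namespace Pool.Agent.V5helper67.EC

open Pool.Agent.Helper120.EaModel Pool.Agent.Helper120.EaJ4 Pool.Agent.V5helper67.EA

namespace Pm

theorem sum_sl (Q : Pm) : ∑ l : Fin Q.g, Q.sl l.val ≤ Q.N + Q.g * Q.n := by
  have h : ∀ l ∈ (Finset.univ : Finset (Fin Q.g)), Q.sl l.val ≤
      (if l = ⟨0, by have := Q.hg; omega⟩ then Q.N else 0) + Q.n := by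
    intro l _
    unfold sl
    by_cases h0 : l.val = 0
    · rw [if_pos h0, if_pos (Fin.ext h0)]
      omega
    · rw [if_neg h0]
      omega
  refine (sum_le_sum h).trans ?_
  rw [sum_add_distrib, sum_ite_eq' Finset.univ _ fun _ => Q.N, if_pos (mem_univ _), sum_const,
    card_univ, Fintype.card_fin, smul_eq_mul]

theorem sum_rm (Q : Pm) : ∑ l : Fin Q.g, Q.rm l.val ≤ Q.M + Q.g * Q.n := by
  have hg := Q.hg
  have h : ∀ l ∈ (Finset.univ : Finset (Fin Q.g)), Q.rm l.val ≤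
      (if l = ⟨1, by omega⟩ then Q.M else 0) + Q.n := by
    intro l _
    unfold rm
    by_cases h0 : l.val = 0
    · rw [if_pos h0]
      omega
    · rw [if_neg h0]
      by_cases h1 : l.val = 1
      · rw [if_pos h1, if_pos (Fin.ext h1)]
        omega
      · rw [if_neg h1]
        omega
  refine (sum_le_sum h).trans ?_
  rw [sum_add_distrib, sum_ite_eq' Finset.univ _ fun _ => Q.M, if_pos (mem_univ _), sum_const,
    card_univ, Fintype.card_fin, smul_eq_mul]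

theorem card_Ex (Q : Pm) : Fintype.card Q.Ex =
    Q.L * ∑ l : Fin Q.g, Q.sl l.val + (Q.L * ∑ i : Fin Q.g, Q.rm i.val + Q.P) +
      Q.L * ∑ i : Fin Q.g, Q.rm i.val := by
  simp [Ex, Dep, Spk, Rim, Fintype.card_sum, Fintype.card_prod, Fintype.card_sigma]

theorem core4 {m n N M' B ℓ L : ℕ} (hn : 10 ≤ n) (hℓ : 22 ≤ ℓ) (hL : 0 < L) (hNn : ℓ * n ^ 2 ≤ B)
    (hN1 : 1 ≤ N) (hNB : N ≤ B) (hM1 : 1 ≤ M') (hMB : M' ≤ B) (hLN : L * (6 * B) ≤ m)
    (hlog : 5 * Real.log m + 2 ≤ ℓ) (hn5 : 32 * (ℓ : ℝ) ^ 2 * (m : ℝ) ^ 2 ≤ n * N * M') :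
    ∃ (Q : Pm) (x0 : Finset Q.Ex), (GG Q).IsSpanningTree x0 ∧ Fintype.card Q.Ex = m ∧
      Q.L = L ∧ Q.N = N ∧ Q.M = M' ∧ Q.n = n ∧ Q.g = ℓ * n ∧
      ENNReal.ofReal (L * (m : ℝ) ^ 2 / (42 * ℓ)) ≤ (GG Q).expectedRuntime x0 := by
  classical
  have hgn : 2 ≤ ℓ * n := by nlinarith
  have hLm : L * (6 * ℓ * n ^ 2) ≤ m := by
    refine le_trans (Nat.mul_le_mul_left _ ?_) hLN
    rw [mul_assoc]
    exact Nat.mul_le_mul_left _ hNn
  obtain ⟨Q0, hQ0⟩ : ∃ Q0 : Pm, Q0 = ⟨L, ℓ * n, n, N, M', 0, hgn, by omega, hN1, hM1⟩ := ⟨_, rfl⟩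
  obtain ⟨Q, hQ⟩ : ∃ Q : Pm, Q = ⟨L, ℓ * n, n, N, M',
    m - (L * ∑ l : Fin (ℓ * n), Q0.sl l.val + 2 * (L * ∑ i : Fin (ℓ * n), Q0.rm i.val)),
    hgn, by omega, hN1, hM1⟩ := ⟨_, rfl⟩
  have qL : Q.L = L := by rw [hQ]
  have qg : Q.g = ℓ * n := by rw [hQ]
  have qn : Q.n = n := by rw [hQ]
  have qN : Q.N = N := by rw [hQ]
  have qM : Q.M = M' := by rw [hQ]
  have hcard : Fintype.card Q.Ex = m := by
    rw [card_Ex]
    have h1 := sum_sl Q0
    have h2 := sum_rm Q0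
    have e1 : Q0.N + Q0.g * Q0.n ≤ 2 * B := by
      rw [hQ0]
      simp only
      have : ℓ * n * n = ℓ * n ^ 2 := by ring
      omega
    have e1' : Q0.M + Q0.g * Q0.n ≤ 2 * B := by
      rw [hQ0]
      simp only
      have : ℓ * n * n = ℓ * n ^ 2 := by ring
      omega
    replace h1 := h1.trans e1
    replace h2 := h2.trans e1'
    have h3 : ∑ l : Fin (ℓ * n), Q0.sl l.val ≤ 2 * B := by
      rw [hQ0] at h1 ⊢
      exact h1
    have h4 : ∑ l : Fin (ℓ * n), Q0.rm l.val ≤ 2 * B := by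
      rw [hQ0] at h2 ⊢
      exact h2
    have e2 : ∑ l : Fin Q.g, Q.sl l.val = ∑ l : Fin (ℓ * n), Q0.sl l.val := by
      rw [hQ, hQ0]
      rfl
    have e3 : ∑ l : Fin Q.g, Q.rm l.val = ∑ l : Fin (ℓ * n), Q0.rm l.val := by
      rw [hQ, hQ0]
      rfl
    have e4 : Q.P = m - (L * ∑ l : Fin (ℓ * n), Q0.sl l.val +
        2 * (L * ∑ i : Fin (ℓ * n), Q0.rm i.val)) := by rw [hQ]
    rw [e2, e3, e4, qL]
    have h5 : L * ∑ l : Fin (ℓ * n), Q0.sl l.val ≤ L * (2 * B) :=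
      Nat.mul_le_mul_left _ h3
    have h6 : L * ∑ l : Fin (ℓ * n), Q0.rm l.val ≤ L * (2 * B) :=
      Nat.mul_le_mul_left _ h4
    have h7 : L * (6 * B) = 3 * (L * (2 * B)) := by ring
    omega
  -- real versions
  obtain ⟨M, hM⟩ : ∃ M : ℝ, M = m := ⟨_, rfl⟩
  obtain ⟨a, ha⟩ : ∃ a : ℝ, a = n := ⟨_, rfl⟩
  obtain ⟨l, hl⟩ : ∃ l : ℝ, l = ℓ := ⟨_, rfl⟩
  obtain ⟨A, hA⟩ : ∃ A : ℝ, A = N := ⟨_, rfl⟩
  obtain ⟨A2, hA2⟩ : ∃ A2 : ℝ, A2 = M' := ⟨_, rfl⟩
  obtain ⟨b, hb⟩ : ∃ b : ℝ, b = L := ⟨_, rfl⟩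
  have ha10 : 10 ≤ a := by rw [ha]; exact_mod_cast hn
  have hl22 : 22 ≤ l := by rw [hl]; exact_mod_cast hℓ
  have hb1 : 1 ≤ b := by rw [hb]; exact_mod_cast hL
  have hbm : b * (6 * l * a ^ 2) ≤ M := by
    rw [hb, hl, ha, hM]
    exact_mod_cast hLm
  rw [← hM] at hlog hn5 ⊢
  rw [← hl] at hlog ⊢
  rw [← ha, ← hl, ← hA, ← hA2] at hn5
  rw [← hb]
  have hM1 : 1000 ≤ M := by
    have h1 : 100 ≤ a ^ 2 := by nlinarith
    have h2 : 6 * 22 * 100 ≤ 6 * l * a ^ 2 := by nlinarith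
    nlinarith
  have hlM : 6 * l * a ^ 2 ≤ M := by nlinarith [sq_nonneg a]
  have hbM : b ≤ M := by
    have h1 : 100 ≤ a ^ 2 := by nlinarith
    have : 1 ≤ 6 * l * a ^ 2 := by nlinarith
    nlinarith
  have hM0 : 0 < M := by linarith
  have ha0 : 0 < a := by linarith
  -- the small number
  obtain ⟨τ, hτ⟩ : ∃ τ : ℝ, τ = 2 * (1 - 1 / (Q.n : ℝ)) ^ (Q.g - 2 - Q.n) := ⟨_, rfl⟩
  have hτle : τ ≤ 2 / M ^ 5 := by
    rw [hτ, qn, qg, ← ha]
    have h1 : 1 - 1 / a ≤ Real.exp (-(1 / a)) := by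
      have := Real.add_one_le_exp (-(1 / a))
      linarith
    have h0 : 0 ≤ 1 - 1 / a := by
      have : 1 / a ≤ 1 := by rw [div_le_one ha0]; linarith
      linarith
    have h2 : (1 - 1 / a) ^ (ℓ * n - 2 - n) ≤ Real.exp (-(1 / a)) ^ (ℓ * n - 2 - n) :=
      pow_le_pow_left₀ h0 h1 _
    rw [← Real.exp_nat_mul] at h2
    have h3 : ((ℓ * n - 2 - n : ℕ) : ℝ) = l * a - 2 - a := by
      have h4 : 2 ≤ ℓ * n := by nlinarith
      have h5 : n ≤ ℓ * n - 2 := by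
        have : 22 * n ≤ ℓ * n := Nat.mul_le_mul_right _ hℓ
        omega
      rw [Nat.cast_sub h5, Nat.cast_sub h4]
      push_cast
      rw [hl, ha]
    rw [h3] at h2
    have h4 : (l * a - 2 - a) * -(1 / a) ≤ -(5 * Real.log M) := by
      have h5 : (l * a - 2 - a) * -(1 / a) = -(l - 1 - 2 / a) := by
        field_simp
        ring
      rw [h5]
      have h6 : 2 / a ≤ 1 := by rw [div_le_one ha0]; linarith
      linarith
    have h5 : Real.exp (-(5 * Real.log M)) = 1 / M ^ 5 := by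
      rw [Real.exp_neg, one_div]
      congr 1
      have : (5 : ℝ) * Real.log M = ((5 : ℕ) : ℝ) * Real.log M := by norm_num
      rw [this, Real.exp_nat_mul, Real.exp_log hM0]
    have h6 := h2.trans (Real.exp_le_exp.2 h4)
    rw [h5] at h6
    calc 2 * (1 - 1 / a) ^ (ℓ * n - 2 - n) ≤ 2 * (1 / M ^ 5) := by linarith
      _ = 2 / M ^ 5 := by ring
  have hτ0 : 0 ≤ τ := by
    rw [hτ, qn, ← ha]
    have h0 : 0 ≤ 1 - 1 / a := by
      have : 1 / a ≤ 1 := by rw [div_le_one ha0]; linarith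
      linarith
    positivity
  have hM5 : 1000 ≤ M ^ 5 := by
    have : M ≤ M ^ 5 := by
      calc M = M * 1 := by ring
        _ ≤ M * M ^ 4 := mul_le_mul_of_nonneg_left (one_le_pow₀ (by linarith)) hM0.le
        _ = M ^ 5 := by ring
    linarith
  have hadm := uu_adm (Q := Q) (by rw [qn]; exact hn) (by
    rw [qn, qg]
    have : 22 * n ≤ ℓ * n := Nat.mul_le_mul_right _ hℓ
    omega) (by
    rw [← hτ]
    refine hτle.trans ?_
    rw [div_le_iff₀ (by positivity)]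
    linarith)
  rw [← hτ] at hadm
  obtain ⟨K, hK⟩ : ∃ K : ℝ, K = 4 + 2 * (1 / (Q.n : ℝ)) * (Q.n + Q.g) := ⟨_, rfl⟩
  have hK2 : K = 2 * l + 6 := by
    rw [hK, qn, qg]
    push_cast
    rw [← ha, ← hl]
    field_simp
    ring
  obtain ⟨ε, hε⟩ : ∃ ε : ℝ, ε = Q.L * (2 * τ * (Q.n + Q.g)) := ⟨_, rfl⟩
  have hLε : Q.L * ε ≤ 1 := by
    rw [hε, qL, qn, qg]
    push_cast
    rw [← ha, ← hl, ← hb]
    have h1 : a + l * a ≤ M := by nlinarith
    have h2 : b * (b * (2 * τ * (a + l * a))) ≤ M * (M * (2 * (2 / M ^ 5) * M)) := by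
      have h3 : 2 * τ * (a + l * a) ≤ 2 * (2 / M ^ 5) * M := by
        apply mul_le_mul _ h1 (by positivity) (by positivity)
        linarith
      have h4 : b * (2 * τ * (a + l * a)) ≤ M * (2 * (2 / M ^ 5) * M) :=
        mul_le_mul hbM h3 (by positivity) hM0.le
      exact mul_le_mul hbM h4 (by positivity) hM0.le
    refine h2.trans ?_
    have h3 : M * (M * (2 * (2 / M ^ 5) * M)) = 4 / M ^ 2 := by
      field_simp
      ring
    rw [h3, div_le_one (by positivity)]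
    nlinarith
  have hres := lower (Q := Q) (by
      rw [hcard]
      have : (1000 : ℝ) ≤ m := by rw [← hM]; exact hM1
      have h2 : 1000 ≤ m := by exact_mod_cast this
      omega) hadm hK hε rfl hLε (by
      rw [hcard, qL]
      have : (L : ℝ) ≤ m := by rw [← hM, ← hb]; exact hbM
      exact_mod_cast this) (by rw [qL]; exact hL)
    (by
      rw [hcard, qL, ← hM, ← hb, hK2, one_div, inv_pow, ← div_eq_mul_inv,
        div_le_one (by positivity)]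
      have h1 : 2 * (2 * l + 6) * b ≤ M := by
        have h3 : 100 ≤ a ^ 2 := by nlinarith
        have h4 : 6 * l * 100 ≤ 6 * l * a ^ 2 := mul_le_mul_of_nonneg_left h3 (by linarith)
        have h2 : 2 * (2 * l + 6) ≤ 6 * l * a ^ 2 := by linarith
        have h5 : b * (2 * (2 * l + 6)) ≤ b * (6 * l * a ^ 2) :=
          mul_le_mul_of_nonneg_left h2 (by linarith)
        linarith
      nlinarith)
    (by
      rw [hcard, qn, qN, qM, ← hM]
      rw [← ha, ← hA, ← hA2, hK2, one_div, inv_pow, ← div_eq_mul_inv, le_div_iff₀ (by positivity)]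
      have hlogM : 0 ≤ Real.log M := Real.log_nonneg (by linarith)
      have h1 : 12 * ((2 * l + 6) * (2 * Real.log M) + 1) ≤ 32 * l ^ 2 := by
        have h2 : Real.log M ≤ l / 5 := by linarith
        have h3 : (2 * l + 6) * (2 * Real.log M) ≤ (2 * l + 6) * (2 * (l / 5)) :=
          mul_le_mul_of_nonneg_left (by linarith) (by linarith)
        nlinarith
      calc 12 * ((2 * l + 6) * (2 * Real.log M) + 1) * M ^ 2 ≤ 32 * l ^ 2 * M ^ 2 :=
            mul_le_mul_of_nonneg_right h1 (by positivity)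
        _ ≤ a * A * A2 := hn5)
  obtain ⟨x0, hx0, hE⟩ := hres
  refine ⟨Q, x0, hx0, hcard, qL, qN, qM, qn, qg, le_trans (ENNReal.ofReal_le_ofReal ?_) hE⟩
  rw [hcard, qL, ← hM, ← hb, hK2]
  have h1 : 8 * (2 * l + 6) + 2 ≤ 21 * l := by linarith
  have h2 : b / 2 / ((8 * (2 * l + 6) + 2) * (1 / M) ^ 2) =
      b * M ^ 2 / (2 * (8 * (2 * l + 6) + 2)) := by
    field_simp
  rw [h2]
  apply div_le_div_of_nonneg_left (by positivity) (by positivity)
  linarith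

end Pm

end Pool.Agent.V5helper67.EC
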