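import Pool.Agent.V5helper67.EC.Graph

open Finset

namespace Pool.Agent.V5helper67.EC

open Pool.Agent.Helper120.EaModel Pool.Agent.V5helper67.EA

namespace Pm

theorem sum_rm' (Q : Pm) : ∑ l : Fin Q.g, Q.rm l.val ≤ Q.M + Q.g * Q.n := by
  have hg := Q.hg
  have h : ∀ l ∈ (Finset.univ : Finset (Fin Q.g)), Q.rm l.val ≤
      (if l = ⟨1, by omega⟩ then Q.M else 0) + Q.n := by
    intro l _
    unfold rm
    by_cases h0 : l.val = 0
    · rw [if_pos h0]
      omega
    · rw [if_neg h0]
      by_cases h1 : l.val = 1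
      · rw [if_pos h1, if_pos (Fin.ext h1)]
        omega
      · rw [if_neg h1]
        omega
  refine (sum_le_sum h).trans ?_
  rw [sum_add_distrib, sum_ite_eq' Finset.univ _ fun _ => Q.M, if_pos (mem_univ _), sum_const,
    card_univ, Fintype.card_fin, smul_eq_mul]

/-- the cyclomatic number of the instance -/
theorem cyclo (Q : Pm) :
    Fintype.card Q.Ex + 1 ≤ Nat.card Q.Vx + Q.L * (Q.M + Q.g * Q.n) := by
  have h1 : Fintype.card Q.Ex = Fintype.card Q.Dep + Q.L * ∑ i : Fin Q.g, Q.rm i.val := by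
    simp [Ex, Rim, Fintype.card_sum, Fintype.card_prod, Fintype.card_sigma]
  have h2 : Nat.card Q.Vx = Fintype.card Q.Dep + 1 := by
    rw [Nat.card_eq_fintype_card]
    exact Fintype.card_option
  rw [h1, h2]
  have h3 := Nat.mul_le_mul_left Q.L (sum_rm' Q)
  omega

end Pm

end Pool.Agent.V5helper67.EC
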