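import Pool.Agent.V5helper67.CK.Drift

open Finset
open scoped ENNReal

namespace Pool.Agent.V5helper67.EC

open Pool.Agent.Helper120.EaModel Pool.Agent.Helper120.EaJ4 Pool.Agent.V5helper67.EA

namespace Pm

variable {Q : Pm}

/-- the tree of all spoke edges and frozen edges -/
def T0 (Q : Pm) : Finset Q.Ex := (Finset.univ : Finset Q.Dep).map ⟨Sum.inl, Sum.inl_injective⟩

theorem mem_T0 (d : Q.Dep) : (Sum.inl d : Q.Ex) ∈ T0 Q := by
  simp [T0]

theorem T0_tree (Q : Pm) : (GG Q).IsSpanningTree (T0 Q) := by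
  classical
  have h1 : ∀ r : ℕ, ∀ v : Q.Vx, rk v ≤ r → ((GG Q).subgraph (T0 Q)).Reachable v none := by
    intro r
    induction r with
    | zero =>
      intro v hv
      rcases v with _ | d
      · exact SimpleGraph.Reachable.refl _
      · have := rk_par d
        omega
    | succ r ih =>
      intro v hv
      rcases v with _ | d
      · exact SimpleGraph.Reachable.refl _
      · have h2 := rk_par d
        refine (reach_of_mem (mem_T0 d) ?_).trans (ih (par d) (by omega))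
        show s(_, _) = _
        rfl
  rw [tree_iff]
  refine ⟨?_, ?_⟩
  · have : Nonempty Q.Vx := ⟨none⟩
    constructor
    intro u v
    exact (h1 _ u le_rfl).trans (h1 _ v le_rfl).symm
  · unfold T0
    rw [card_map, card_univ, Nat.card_eq_fintype_card]
    exact (Fintype.card_option (α := Q.Dep)).symm

theorem exists_start (Q : Pm) (hL : 0 < Q.L) : ∃ x : Finset Q.Ex, St x ∧ pos x ⟨0, hL⟩ ≤ 1 := by
  classical
  have hg := Q.hg
  have hM := Q.hM
  have h0 : 0 < Q.g := by omega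
  have h1 : 1 < Q.g := by omega
  have hR : ¬ R (T0 Q) ⟨0, hL⟩ 1 := by
    rintro ⟨h, k, hk⟩
    simp [T0, re] at hk
  have ht : 0 < Q.sl 0 := Q.sl_pos 0
  have hk : 0 < Q.rm 1 := by
    unfold rm
    simp
    omega
  obtain ⟨_, _, h4⟩ := trig (T0_tree Q) ⟨0, hL⟩ hR h0 h1 ⟨0, ht⟩ ⟨0, hk⟩
  refine ⟨_, ⟨h4, ?_⟩, ?_⟩
  · intro d
    refine mem_insert_of_mem (mem_erase.2 ⟨?_, mem_T0 _⟩)
    simp [se]
  · apply pos_le
    exact ⟨h1, ⟨0, hk⟩, mem_insert_self _ _⟩

variable {u : ℕ → ℝ} {κ τ : ℝ}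

/-- the potential vanishes on the optimal trees -/
theorem Phi_opt (hu : Adm Q u κ τ) {x : Finset Q.Ex} (hx : St x)
    (ho : (GG Q).totalWeight x = (GG Q).optWeight) : Phi u x = 0 := by
  classical
  have h1 : ∀ j, u (pos x j) = 0 := by
    intro j
    by_contra hne
    have hpos : 0 < u (pos x j) := lt_of_le_of_ne (hu.nonneg _) (Ne.symm hne)
    obtain ⟨φ, _, hφ⟩ := gain_moves hx j (hu.bd _ hpos)
    have h2 := hφ ⟨0, Q.hn⟩
    have h3 := gain_lt h2
    have h4 : (GG Q).optWeight ≤ _ := Nat.sInf_le ⟨_, h2.2.2.2.2.2.1, rfl⟩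
    omega
  unfold Phi
  refine sum_eq_zero fun k _ => ?_
  have : UU u x k = 0 := by
    unfold UU
    exact sum_eq_zero fun j _ => h1 j
  rw [this]
  simp

/-- **The lower bound for one instance.** -/
theorem lower (hcard : 4 ≤ Fintype.card Q.Ex) (hu : Adm Q u κ τ)
    {K ε p : ℝ} (hK : K = 4 + 2 * κ * (Q.n + Q.g)) (hε : ε = Q.L * (2 * τ * (Q.n + Q.g)))
    (hp : p = 1 / (Fintype.card Q.Ex : ℝ)) (hεL : Q.L * ε ≤ 1) (hL : Q.L ≤ Fintype.card Q.Ex)
    (hL0 : 0 < Q.L)
    (hS : (2 * K * Q.L + 1) * p ^ 2 ≤ 1)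
    (hP : 12 * (K * (2 * Real.log (Fintype.card Q.Ex)) + 1) ≤ (Q.n * Q.N * Q.M : ℝ) * p ^ 2) :
    ∃ x0 : Finset Q.Ex, (GG Q).IsSpanningTree x0 ∧
      ENNReal.ofReal ((Q.L : ℝ) / 2 / ((8 * K + 2) * p ^ 2)) ≤ (GG Q).expectedRuntime x0 := by
  classical
  obtain ⟨x0, hx0, hpos0⟩ := exists_start Q hL0
  refine ⟨x0, hx0.1, ?_⟩
  have hκ := hu.κ0
  have hmR : (4 : ℝ) ≤ Fintype.card Q.Ex := by exact_mod_cast hcard
  have hp0 : 0 < p := by rw [hp]; positivity
  have hK4 : 4 ≤ K := by rw [hK]; have : 0 ≤ 2 * κ * (Q.n + Q.g) := by positivity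
                         linarith
  have h := add_drift (E := Q.Ex) (by omega) (GG Q) x0 St hx0 (fun x F hx => St_select hx F)
    (Phi u) ((8 * K + 2) * p ^ 2) (by positivity) (fun x _ => Phi_nonneg hu x) Q.L
    (by positivity) Phi_le (fun x hx ho => Phi_opt hu hx ho)
    (by
      intro x hx _
      have h1 := drift hcard hu hx hK hε hp hεL hL hS hP
      refine le_trans (le_of_eq ?_) h1
      refine sum_congr rfl fun F _ => ?_
      have : nx x F = (GG Q).select x (symmDiff x F) := by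
        unfold nx
        congr!
      rw [this])
  refine le_trans (ENNReal.ofReal_le_ofReal ?_) h
  apply div_le_div_of_nonneg_right _ (by positivity)
  -- the value of the potential at the start
  have h1 : ∀ k ∈ (Finset.univ : Finset (Fin Q.L)), (1 / 2 : ℝ) ≤ 1 - Real.exp (-UU u x0 k) := by
    intro k _
    have h2 : 2 ≤ UU u x0 k := by
      unfold UU
      have h3 : u (pos x0 ⟨0, hL0⟩) = 2 := by
        rw [← hu.one]
        congr 1
        have := one_le_pos x0 ⟨0, hL0⟩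
        omega
      rw [← h3]
      refine single_le_sum (f := fun j => u (pos x0 j)) (fun j _ => hu.nonneg _) ?_
      rw [mem_Iic, Fin.le_def]
      simp
    have h4 : Real.exp (-UU u x0 k) ≤ Real.exp (-1) := Real.exp_le_exp.2 (by linarith)
    have h5 : Real.exp (-1) ≤ 1 / 2 := by
      rw [Real.exp_neg, one_div]
      apply inv_anti₀ (by norm_num)
      have := Real.add_one_le_exp (1 : ℝ)
      linarith
    linarith
  have h2 := card_nsmul_le_sum _ _ _ h1
  rw [card_univ, Fintype.card_fin, nsmul_eq_mul] at h2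
  unfold Phi
  linarith

/-- the weight function of the positions -/
noncomputable def uu (Q : Pm) (i : ℕ) : ℝ :=
  if i + 1 + Q.n ≤ Q.g then 2 * (1 - 1 / (Q.n : ℝ)) ^ (i - 1) else 0

theorem uu_adm (hn : 10 ≤ Q.n) (hg : 2 + Q.n ≤ Q.g)
    (hτ : 2 * (1 - 1 / (Q.n : ℝ)) ^ (Q.g - 2 - Q.n) ≤ 1 / 10) :
    Adm Q (uu Q) (1 / (Q.n : ℝ)) (2 * (1 - 1 / (Q.n : ℝ)) ^ (Q.g - 2 - Q.n)) := by
  have hnR : (10 : ℝ) ≤ Q.n := by exact_mod_cast hn
  have hκ1 : 1 / (Q.n : ℝ) ≤ 1 / 10 := one_div_le_one_div_of_le (by norm_num) hnR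
  have hκ0 : 0 ≤ 1 / (Q.n : ℝ) := by positivity
  obtain ⟨q, hq⟩ : ∃ q, q = 1 - 1 / (Q.n : ℝ) := ⟨_, rfl⟩
  have hq0 : 0 ≤ q := by rw [hq]; linarith
  have hq1 : q ≤ 1 := by rw [hq]; linarith
  have huu : ∀ i, uu Q i = if i + 1 + Q.n ≤ Q.g then 2 * q ^ (i - 1) else 0 := by
    intro i
    rw [hq]
    rfl
  rw [← hq] at hτ ⊢
  refine ⟨?_, ?_, ?_, ?_, ?_, hκ0, by positivity, by linarith⟩
  · intro i
    rw [huu]
    split_ifs
    · positivity
    · exact le_rfl
  · intro i i' hii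
    rw [huu, huu]
    by_cases h : i' + 1 + Q.n ≤ Q.g
    · rw [if_pos h, if_pos (by omega)]
      have : q ^ (i' - 1) ≤ q ^ (i - 1) := pow_le_pow_of_le_one hq0 hq1 (by omega)
      linarith
    · rw [if_neg h]
      split_ifs
      · positivity
      · exact le_rfl
  · rw [huu, if_pos (by omega)]
    simp
  · intro i hi
    rw [huu] at hi
    by_contra h
    rw [if_neg h] at hi
    exact lt_irrefl _ hi
  · intro i
    rw [huu, huu]
    have hτ0 : 0 ≤ 2 * q ^ (Q.g - 2 - Q.n) := by positivity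
    by_cases h : i + 1 + 1 + Q.n ≤ Q.g
    · rw [if_pos h, if_pos (by omega)]
      rcases Nat.eq_zero_or_pos i with h0 | h0
      · subst h0
        simp only [zero_add, Nat.zero_sub, Nat.sub_self, pow_zero]
        nlinarith
      · obtain ⟨t, rfl⟩ : ∃ t, i = t + 1 := ⟨i - 1, by omega⟩
        have h1 : t + 1 + 1 - 1 = (t + 1 - 1) + 1 := by omega
        rw [h1, pow_succ]
        have h2 : 0 ≤ q ^ (t + 1 - 1) := pow_nonneg hq0 _
        have h3 : 1 / (Q.n : ℝ) = 1 - q := by rw [hq]; ring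
        rw [h3]
        nlinarith
    · rw [if_neg h]
      by_cases h' : i + 1 + Q.n ≤ Q.g
      · rw [if_pos h']
        have h1 : i - 1 = Q.g - 2 - Q.n := by omega
        rw [h1]
        have : 0 ≤ 1 / (Q.n : ℝ) * (2 * q ^ (Q.g - 2 - Q.n)) := by positivity
        linarith
      · rw [if_neg h']
        nlinarith

end Pm

end Pool.Agent.V5helper67.EC
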