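import Pool.Agent.V5helper67.EC.Graph

open Finset

namespace Pool.Agent.V5helper67.EC

open Pool.Agent.Helper120.EaModel Pool.Agent.V5helper67.EA

section general

variable {V E : Type} {G : WGraph V E}

theorem reach_closed {A : Finset E} {S : Set V}
    (h : ∀ e ∈ A, ∀ u v, G.ends e = s(u, v) → (u ∈ S ↔ v ∈ S)) {u v : V}
    (huv : (G.subgraph A).Reachable u v) : u ∈ S ↔ v ∈ S := by
  obtain ⟨w⟩ := huv
  induction w with
  | nil => exact Iff.rfl
  | cons hadj _ ih =>
    rw [sg_adj] at hadj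
    obtain ⟨e, he, he'⟩ := hadj
    exact (h e he _ _ he').trans ih

variable [Finite V] [DecidableEq E]

/-- exchange across a cut -/
theorem cut_swap {x : Finset E} (hx : G.IsSpanningTree x) {e f : E} (he : e ∈ x) (hf : f ∉ x)
    {S : Set V} (h : ∀ e' ∈ x, e' ≠ e → ∀ u v, G.ends e' = s(u, v) → (u ∈ S ↔ v ∈ S))
    {u v : V} (huv : G.ends f = s(u, v)) (hS : ¬ (u ∈ S ↔ v ∈ S)) :
    G.IsSpanningTree (insert f (x.erase e)) := by
  apply swap_tree hx he hf
  intro p q hpq
  have hx' := ((tree_iff G).1 hx).1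
  have h1 : (G.subgraph (insert e (x.erase e))).Reachable u v := by
    rw [insert_erase he]
    exact hx'.preconnected u v
  have hfr : (G.subgraph (insert f (x.erase e))).Reachable u v :=
    reach_of_mem (mem_insert_self _ _) huv
  have hsub : G.subgraph (x.erase e) ≤ G.subgraph (insert f (x.erase e)) :=
    sg_mono G (subset_insert _ _)
  rcases reach_insert hpq h1 with h2 | h2 | h2
  · exfalso
    apply hS
    refine reach_closed ?_ h2
    intro e' he'
    rw [mem_erase] at he'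
    exact h e' he'.2 he'.1
  · exact ((h2.1.mono hsub).symm.trans hfr).trans (h2.2.mono hsub).symm
  · exact ((h2.2.mono hsub).trans hfr.symm).trans (h2.1.mono hsub)

/-- every edge of a spanning tree is a bridge -/
theorem bridge {x : Finset E} (hx : G.IsSpanningTree x) {e : E} (he : e ∈ x) {u v : V}
    (huv : G.ends e = s(u, v)) : ¬ (G.subgraph (x.erase e)).Reachable u v := by
  intro hcon
  rw [tree_iff] at hx
  have h1 : (G.subgraph (x.erase e)).Connected := by
    have := hx.1.nonempty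
    constructor
    intro p q
    refine reach_of (A := x) ?_ (hx.1.preconnected p q)
    intro e' he' p' q' hpq
    by_cases h : e' = e
    · subst h
      rw [huv, Sym2.eq_iff] at hpq
      rcases hpq with ⟨h1, h2⟩ | ⟨h1, h2⟩
      · subst h1; subst h2; exact hcon
      · subst h1; subst h2; exact hcon.symm
    · exact reach_of_mem (mem_erase.2 ⟨h, he'⟩) hpq
  have h2 := conn_card G h1
  rw [card_erase_of_mem he] at h2
  have : 0 < x.card := card_pos.2 ⟨e, he⟩
  omega

end general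

namespace Pm

variable {Q : Pm}

/-- the states of the search: spanning trees that contain all frozen edges -/
def St (x : Finset Q.Ex) : Prop := (GG Q).IsSpanningTree x ∧ ∀ d, (Sum.inl (Sum.inr d) : Q.Ex) ∈ x

/-- some edge of the rim bundle `i` of the block `j` is present -/
def R (x : Finset Q.Ex) (j : Fin Q.L) (i : ℕ) : Prop :=
  ∃ (h : i < Q.g) (k : Fin (Q.rm i)), re j ⟨i, h⟩ k ∈ x

/-- the spoke `l` of the block `j` is complete -/
def C (x : Finset Q.Ex) (j : Fin Q.L) (l : ℕ) : Prop :=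
  ∀ (h : l < Q.g) (t : Fin (Q.sl l)), se j ⟨l, h⟩ t ∈ x

theorem not_R_zero (x : Finset Q.Ex) (j : Fin Q.L) : ¬ R x j 0 := by
  rintro ⟨h, k, _⟩
  exact absurd (Q.pos_of_rm k) (by omega)

theorem not_R_g (x : Finset Q.Ex) (j : Fin Q.L) {i : ℕ} (hi : Q.g ≤ i) : ¬ R x j i := by
  rintro ⟨h, k, _⟩
  omega

theorem ends_closed {x : Finset Q.Ex} {j : Fin Q.L} {a b : ℕ} {p : ℕ → ℕ} (hab : a ≤ b)
    (hp : ∀ l, a ≤ l → l ≤ b → p l < Q.sl l) (P : Q.Ex → Prop)
    (h : ∀ e ∈ x, P e → ¬ Cr j a b p e) :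
    ∀ e ∈ x, P e → ∀ u v, (GG Q).ends e = s(u, v) → (u ∈ SS j a b p ↔ v ∈ SS j a b p) := by
  intro e he hP u v huv
  have h1 := h e he hP
  rw [cr_iff hab hp, not_not] at h1
  have h2 : s(hiV e, loV e) = s(u, v) := huv
  rw [Sym2.eq_iff] at h2
  rcases h2 with ⟨rfl, rfl⟩ | ⟨rfl, rfl⟩
  · exact h1
  · exact h1.symm

/-- index of a missing edge of the spoke `l` -/
noncomputable def mis (x : Finset Q.Ex) (j : Fin Q.L) (l : ℕ) : ℕ := by
  classical
  exact if h : ∃ (h : l < Q.g) (t : Fin (Q.sl l)), se j ⟨l, h⟩ t ∉ x then h.choose_spec.choose.val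
    else 0

theorem mis_lt (x : Finset Q.Ex) (j : Fin Q.L) (l : ℕ) : mis x j l < Q.sl l := by
  classical
  unfold mis
  split_ifs with h
  · exact h.choose_spec.choose.2
  · exact Q.sl_pos l

theorem mis_notMem {x : Finset Q.Ex} {j : Fin Q.L} {l : ℕ} (h : ¬ C x j l) (hl : l < Q.g) :
    se j ⟨l, hl⟩ ⟨mis x j l, mis_lt x j l⟩ ∉ x := by
  classical
  have h1 : ∃ (h : l < Q.g) (t : Fin (Q.sl l)), se j ⟨l, h⟩ t ∉ x := by
    unfold C at h
    push Not at h
    exact h
  have h2 := h1.choose_spec.choose_spec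
  have h3 : mis x j l = h1.choose_spec.choose.val := by
    unfold mis
    rw [dif_pos h1]
  have h4 : (⟨mis x j l, mis_lt x j l⟩ : Fin (Q.sl l)) = h1.choose_spec.choose := Fin.ext h3
  rw [h4]
  exact h2

/-- existence of a complete spoke in an isolated interval -/
theorem exists_complete {x : Finset Q.Ex} (hx : (GG Q).IsSpanningTree x) (j : Fin Q.L) {a b : ℕ}
    (hab : a ≤ b) (hb : b < Q.g) (ha : ¬ R x j a) (hb' : ¬ R x j (b + 1)) :
    ∃ l, a ≤ l ∧ l ≤ b ∧ C x j l := by
  classical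
  by_contra hcon
  push Not at hcon
  have hp : ∀ l, a ≤ l → l ≤ b → mis x j l < Q.sl l := fun l _ _ => mis_lt x j l
  have h1 := ends_closed (x := x) (j := j) hab hp (fun _ => True) (by
    intro e he _ hcr
    rcases e with (⟨j', ⟨l, t⟩⟩ | ⟨j', ⟨i, k⟩⟩ | q) | ⟨j', ⟨i, k⟩⟩
    · obtain ⟨h1, h2, h3, h4⟩ := hcr
      subst h1
      have h5 := mis_notMem (hcon l.val h2 h3) l.2
      apply h5
      have h6 : (⟨mis x j' l.val, mis_lt x j' l.val⟩ : Fin (Q.sl l)) = t := Fin.ext h4.symm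
      rw [h6]
      exact he
    · exact hcr
    · exact hcr
    · obtain ⟨h1, h2⟩ := hcr
      subst h1
      rcases h2 with h2 | h2
      · apply ha
        rw [← h2]
        exact ⟨i.2, k, he⟩
      · apply hb'
        rw [← h2]
        exact ⟨i.2, k, he⟩)
  have h2 := ((tree_iff (GG Q)).1 hx).1.preconnected (tip j ⟨a, by omega⟩) none
  have h3 := reach_closed (fun e he => h1 e he trivial) h2
  rw [tip_mem hp] at h3
  exact none_notMem (h3.1 ⟨rfl, le_rfl, hab⟩)

theorem reach_spoke_up {A : Finset Q.Ex} {j : Fin Q.L} {l : Fin Q.g}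
    (h : ∀ t, se j l t ∈ A) (t : ℕ) (ht : t < Q.sl l) :
    ((GG Q).subgraph A).Reachable none (sv j l ⟨t, ht⟩) := by
  induction t with
  | zero =>
    refine (reach_of_mem (h ⟨0, ht⟩) ?_).symm
    show s(_, _) = _
    rfl
  | succ t ih =>
    refine (ih (by omega)).trans (reach_of_mem (h ⟨t + 1, ht⟩) ?_).symm
    show s(_, _) = _
    rfl

theorem reach_spoke_low {A : Finset Q.Ex} {j : Fin Q.L} {l : Fin Q.g}
    (h : ∀ t : Fin (Q.sl l), 0 < t.val → se j l t ∈ A) (t : ℕ) (ht : t < Q.sl l) :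
    ((GG Q).subgraph A).Reachable (sv j l ⟨0, Q.sl_pos l⟩) (sv j l ⟨t, ht⟩) := by
  induction t with
  | zero => exact SimpleGraph.Reachable.refl _
  | succ t ih =>
    refine (ih (by omega)).trans (reach_of_mem (h ⟨t + 1, ht⟩ (by simp)) ?_).symm
    show s(_, _) = _
    rfl

theorem reach_rim {A : Finset Q.Ex} {j : Fin Q.L} {i : Fin Q.g} {k : Fin (Q.rm i)}
    (h1 : re j i k ∈ A) (h2 : fe j i k ∈ A) :
    ((GG Q).subgraph A).Reachable (tip j (pr i)) (tip j i) := by
  refine (reach_of_mem h1 (u := mv j i k) ?_).symm.trans (reach_of_mem h2 ?_)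
  · show s(_, _) = _
    rfl
  · show s(_, _) = _
    rfl

/-- not two complete spokes in one run -/
theorem no_two {x : Finset Q.Ex} (hx : St x) (j : Fin Q.L) {r s : ℕ} (hrs : r < s)
    (hs : s < Q.g) (hR : ∀ i, r < i → i ≤ s → R x j i) (h1 : C x j r) (h2 : C x j s) : False := by
  classical
  have hr : r < Q.g := by omega
  obtain ⟨e, he⟩ : ∃ e, e = (se j ⟨r, hr⟩ ⟨0, Q.sl_pos r⟩ : Q.Ex) := ⟨_, rfl⟩
  have hex : e ∈ x := by rw [he]; exact h1 hr _
  have hne : ∀ (j' : Fin Q.L) (l : Fin Q.g) (t : Fin (Q.sl l)), (l.val ≠ r ∨ 0 < t.val) →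
      (se j' l t : Q.Ex) ≠ e := by
    intro j' l t hlt heq
    rw [he] at heq
    simp only [se, Sum.inl.injEq, Prod.mk.injEq] at heq
    have h3 := heq.2
    have h4 : l = ⟨r, hr⟩ := congrArg Sigma.fst h3
    subst h4
    have h5 : t = ⟨0, Q.sl_pos r⟩ := by
      simpa using h3
    subst h5
    rcases hlt with h | h
    · exact h rfl
    · exact absurd h (by simp)
  have ha : ((GG Q).subgraph (x.erase e)).Reachable none (tip j ⟨s, hs⟩) := by
    refine reach_spoke_up ?_ _ _
    intro t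
    exact mem_erase.2 ⟨hne j ⟨s, hs⟩ t (Or.inl (by simp; omega)), h2 hs t⟩
  have hb : ∀ d, ∀ i (hi : i < Q.g), r + d = i → i ≤ s →
      ((GG Q).subgraph (x.erase e)).Reachable (tip j ⟨r, hr⟩) (tip j ⟨i, hi⟩) := by
    intro d
    induction d with
    | zero =>
      intro i hi h3 _
      have : i = r := by omega
      subst this
      exact SimpleGraph.Reachable.refl _
    | succ d ih =>
      intro i hi h3 h4
      have h5 := ih (i - 1) (by omega) (by omega) (by omega)
      refine h5.trans ?_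
      obtain ⟨_, k, hk⟩ := hR i (by omega) h4
      refine reach_rim (A := x.erase e) (j := j) (i := ⟨i, hi⟩) (k := k) ?_ ?_
      · exact mem_erase.2 ⟨by rw [he]; simp [re, se], hk⟩
      · exact mem_erase.2 ⟨by rw [he]; simp [fe, se], hx.2 _⟩
  have hc : ((GG Q).subgraph (x.erase e)).Reachable (sv j ⟨r, hr⟩ ⟨0, Q.sl_pos r⟩)
      (tip j ⟨r, hr⟩) := by
    refine reach_spoke_low ?_ _ _
    intro t ht
    exact mem_erase.2 ⟨hne j ⟨r, hr⟩ t (Or.inr ht), h1 hr t⟩
  refine bridge hx.1 hex (u := sv j ⟨r, hr⟩ ⟨0, Q.sl_pos r⟩) (v := none) ?_ ?_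
  · rw [he]
    show s(_, _) = _
    rfl
  · exact (hc.trans (hb (s - r) s hs (by omega) le_rfl)).trans ha.symm

/-- at most one edge of a rim bundle is present -/
theorem rim_unique {x : Finset Q.Ex} (hx : St x) {j : Fin Q.L} {i : Fin Q.g}
    {k k' : Fin (Q.rm i)} (h1 : re j i k ∈ x) (h2 : re j i k' ∈ x) : k = k' := by
  classical
  by_contra hne
  have hne' : (re j i k' : Q.Ex) ≠ re j i k := by
    intro h
    apply hne
    simp only [re, Sum.inr.injEq, Prod.mk.injEq, true_and, Sigma.mk.injEq, heq_eq_eq] at h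
    exact h.symm
  have ha := reach_rim (A := x.erase (re j i k)) (j := j) (i := i) (k := k')
    (mem_erase.2 ⟨hne', h2⟩) (mem_erase.2 ⟨by simp [re, fe], hx.2 _⟩)
  have hb : ((GG Q).subgraph (x.erase (re j i k))).Reachable (mv j i k) (tip j i) := by
    refine reach_of_mem (e := fe j i k) (mem_erase.2 ⟨by simp [re, fe], hx.2 _⟩) ?_
    show s(_, _) = _
    rfl
  refine bridge hx.1 h1 (u := mv j i k) (v := tip j (pr i)) ?_ (hb.trans ha.symm)
  show s(_, _) = _
  rfl

end Pm

end Pool.Agent.V5helper67.EC
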