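import Pool.Agent.V5helper67.CK.Step

open Finset

namespace Pool.Agent.V5helper67.EC

open Pool.Agent.Helper120.EaModel Pool.Agent.Helper120.EaJ4 Pool.Agent.V5helper67.EA

theorem geo_sum (a M : ℕ) {r : ℝ} (h0 : 0 ≤ r) (h1 : r ≤ 2 / 3) :
    ∑ k ∈ range M, (if a ≤ k then r ^ (k - a) else 0) ≤ 3 := by
  have h2 : ∀ M, ∑ k ∈ range M, (if a ≤ k then r ^ (k - a) else 0) =
      ∑ t ∈ range (M - a), r ^ t := by
    intro M
    induction M with
    | zero => simp
    | succ M ih =>
      rw [sum_range_succ, ih]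
      split_ifs with h
      · rw [show M + 1 - a = (M - a) + 1 by omega, sum_range_succ]
      · rw [show M + 1 - a = M - a by omega, add_zero]
  rw [h2]
  have h3 := mul_neg_geom_sum r (M - a)
  have h4 : 0 ≤ r ^ (M - a) := pow_nonneg h0 _
  have h5 : 0 ≤ ∑ t ∈ range (M - a), r ^ t := sum_nonneg fun _ _ => pow_nonneg h0 _
  nlinarith

namespace Pm

variable {Q : Pm} {u : ℕ → ℝ} {κ τ : ℝ}

/-- many mutations restart the next block -/
theorem family (hcard : 4 ≤ Fintype.card Q.Ex) (hu : Adm Q u κ τ) {x : Finset Q.Ex} (hx : St x)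
    {j j' : Fin Q.L} (hjj : j'.val = j.val + 1) (hj : 0 < u (pos x j)) (hj' : u (pos x j') ≤ 1) :
    ∃ 𝒢 : Finset (Finset Q.Ex),
      (Q.n * Q.N * Q.M : ℝ) * (1 / 3 * (1 / (Fintype.card Q.Ex : ℝ)) ^ 4) ≤
        ∑ F ∈ 𝒢, flipProb F ∧
      ∀ F ∈ 𝒢, ∀ k : Fin Q.L, j' ≤ k →
        Real.exp (-UU u (nx x F) k) ≤ Real.exp (-UU u x k) / 2 := by
  classical
  have hg := Q.hg
  have hR : ¬ R x j' 1 := by
    intro h
    have h1 := pos_le h
    have h2 := hu.anti _ _ h1
    rw [hu.one] at h2
    linarith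
  have hne : j ≠ j' := by
    intro h
    rw [h] at hjj
    omega
  obtain ⟨φ, hφ1, hφ2⟩ := gain_moves hx j (hu.bd _ hj)
  have h0 : 0 < Q.g := by omega
  have h1 : 1 < Q.g := by omega
  set ψ : Fin Q.n × Fin (Q.sl 0) × Fin (Q.rm 1) → Finset Q.Ex := fun a =>
    {(φ a.1).1, (φ a.1).2, se j' ⟨0, h0⟩ a.2.1, re j' ⟨1, h1⟩ a.2.2} with hψ
  have hcomb := fun a : Fin Q.n × Fin (Q.sl 0) × Fin (Q.rm 1) =>
    combine hx hjj (hφ2 a.1) hR h0 h1 a.2.1 a.2.2
  have b1 : ∀ t, bl (se j' ⟨0, h0⟩ t : Q.Ex) = some j' := fun _ => rfl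
  have b2 : ∀ t, bl (re j' ⟨1, h1⟩ t : Q.Ex) = some j' := fun _ => rfl
  have hnb : ∀ {e e' : Q.Ex}, bl e = some j → bl e' = some j' → e ≠ e' := by
    intro e e' h2 h3 h4
    rw [h4, h3] at h2
    exact hne (Option.some.inj h2).symm
  have hinj : Function.Injective ψ := by
    rintro ⟨a, t, q⟩ ⟨a', t', q'⟩ h
    simp only [hψ] at h
    have g1 := hφ2 a
    have g2 := hφ2 a'
    have m1 : (φ a).1 ∈ ({(φ a').1, (φ a').2, se j' ⟨0, h0⟩ t', re j' ⟨1, h1⟩ q'} : Finset Q.Ex) := by
      rw [← h]; simp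
    have m2 : (φ a).2 ∈ ({(φ a').1, (φ a').2, se j' ⟨0, h0⟩ t', re j' ⟨1, h1⟩ q'} : Finset Q.Ex) := by
      rw [← h]; simp
    have m3 : se j' ⟨0, h0⟩ t ∈
        ({(φ a').1, (φ a').2, se j' ⟨0, h0⟩ t', re j' ⟨1, h1⟩ q'} : Finset Q.Ex) := by
      rw [← h]; simp
    have m4 : re j' ⟨1, h1⟩ q ∈
        ({(φ a').1, (φ a').2, se j' ⟨0, h0⟩ t', re j' ⟨1, h1⟩ q'} : Finset Q.Ex) := by
      rw [← h]; simp
    simp only [mem_insert, mem_singleton] at m1 m2 m3 m4
    have e1 : (φ a).1 = (φ a').1 := by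
      rcases m1 with m | m | m | m
      · exact m
      · exact absurd (m ▸ g1.1) g2.2.1
      · exact absurd m (hnb g1.2.2.1 (b1 _))
      · exact absurd m (hnb g1.2.2.1 (b2 _))
    have e2 : (φ a).2 = (φ a').2 := by
      rcases m2 with m | m | m | m
      · exact absurd (m ▸ g2.1) g1.2.1
      · exact m
      · exact absurd m (hnb g1.2.2.2.1 (b1 _))
      · exact absurd m (hnb g1.2.2.2.1 (b2 _))
    have e3 : t = t' := by
      rcases m3 with m | m | m | m
      · exact absurd m.symm (hnb g2.2.2.1 (b1 _))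
      · exact absurd m.symm (hnb g2.2.2.2.1 (b1 _))
      · simpa [se] using m
      · exact absurd m se_ne_re
    have e4 : q = q' := by
      rcases m4 with m | m | m | m
      · exact absurd m.symm (hnb g2.2.2.1 (b2 _))
      · exact absurd m.symm (hnb g2.2.2.2.1 (b2 _))
      · exact absurd m.symm se_ne_re
      · simpa [re] using m
    have e5 : a = a' := hφ1 (Prod.ext e1 e2)
    rw [e3, e4, e5]
  have hc4 : ∀ a, (ψ a).card = 4 := by
    intro a
    simp only [hψ]
    have g1 := hφ2 a.1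
    rw [card_insert_of_notMem, card_insert_of_notMem, card_pair se_ne_re]
    · simp only [mem_insert, mem_singleton, not_or]
      exact ⟨hnb g1.2.2.2.1 (b1 _), hnb g1.2.2.2.1 (b2 _)⟩
    · simp only [mem_insert, mem_singleton, not_or]
      exact ⟨fun h => g1.2.1 (h ▸ g1.1), hnb g1.2.2.1 (b1 _), hnb g1.2.2.1 (b2 _)⟩
  refine ⟨Finset.univ.image ψ, ?_, ?_⟩
  · rw [sum_image hinj.injOn]
    have h2 : ∀ a ∈ (Finset.univ : Finset (Fin Q.n × Fin (Q.sl 0) × Fin (Q.rm 1))),
        1 / 3 * (1 / (Fintype.card Q.Ex : ℝ)) ^ 4 ≤ flipProb (ψ a) :=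
      fun a _ => four_prob hcard (hc4 a)
    refine le_trans (le_of_eq ?_) (card_nsmul_le_sum _ _ _ h2)
    rw [nsmul_eq_mul, card_univ, Fintype.card_prod, Fintype.card_prod, Fintype.card_fin,
      Fintype.card_fin, Fintype.card_fin]
    have h3 : Q.sl 0 = Q.N := by simp [sl]
    have h4 : Q.rm 1 = Q.M := by simp [rm]
    rw [h3, h4]
    push_cast
    ring
  · intro F hF k hk
    rw [mem_image] at hF
    obtain ⟨a, _, rfl⟩ := hF
    obtain ⟨_, _, y, hy, hy1, hy2, hy3⟩ := hcomb a
    have hnx : nx x (ψ a) = y := by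
      rw [hy]
      unfold nx
      simp only [hψ]
    rw [hnx]
    have hkey : UU u x k + 7 / 10 ≤ UU u y k := by
      unfold UU
      have hjk : j ∈ Iic k := by
        rw [mem_Iic, Fin.le_def]
        rw [Fin.le_def] at hk
        omega
      have hjk' : j' ∈ (Iic k).erase j := mem_erase.2 ⟨hne.symm, mem_Iic.2 hk⟩
      rw [← add_sum_erase _ _ hjk, ← add_sum_erase _ _ hjk, ← add_sum_erase _ _ hjk',
        ← add_sum_erase _ _ hjk']
      have h5 : ∑ i ∈ ((Iic k).erase j).erase j', u (pos y i) =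
          ∑ i ∈ ((Iic k).erase j).erase j', u (pos x i) := by
        refine sum_congr rfl fun i hi => ?_
        rw [mem_erase, mem_erase] at hi
        rw [hy3 i hi.2.1 hi.1]
      rw [h5]
      have h6 : u (pos y j') = 2 := by
        rw [← hu.one]
        congr 1
        have := one_le_pos y j'
        omega
      have h7 : u (pos x j + 1) ≤ u (pos y j) := hu.anti _ _ hy2
      have h8 := hu.drop (pos x j)
      have h9 := hu.le_two x j
      have h10 := hu.small
      have h11 := hu.κ0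
      nlinarith
    have h5 : Real.exp (-(7 / 10)) ≤ 1 / 2 := by
      have h6 := Real.log_two_lt_d9
      have h7 : Real.exp (-(7 / 10)) ≤ Real.exp (-Real.log 2) :=
        Real.exp_le_exp.2 (by linarith)
      have h8 : Real.exp (-Real.log 2) = 1 / 2 := by
        rw [Real.exp_neg, Real.exp_log (by norm_num), one_div]
      rw [h8] at h7
      exact h7
    calc Real.exp (-UU u y k) ≤ Real.exp (-UU u x k + -(7 / 10)) :=
          Real.exp_le_exp.2 (by linarith)
      _ = Real.exp (-UU u x k) * Real.exp (-(7 / 10)) := Real.exp_add _ _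
      _ ≤ Real.exp (-UU u x k) * (1 / 2) :=
          mul_le_mul_of_nonneg_left h5 (Real.exp_pos _).le
      _ = _ := by ring

/-- the potential -/
noncomputable def Phi (u : ℕ → ℝ) (x : Finset Q.Ex) : ℝ := ∑ k : Fin Q.L, (1 - Real.exp (-UU u x k))

theorem Phi_nonneg (hu : Adm Q u κ τ) (x : Finset Q.Ex) : 0 ≤ Phi u x :=
  sum_nonneg fun k _ => by
    have := Real.exp_le_one_iff.2 (neg_nonpos.2 (hu.UU_nonneg x k))
    linarith

theorem Phi_le (x : Finset Q.Ex) : Phi u x ≤ Q.L := by
  unfold Phi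
  have h : ∀ k ∈ (Finset.univ : Finset (Fin Q.L)), 1 - Real.exp (-UU u x k) ≤ 1 := fun k _ => by
    have := Real.exp_pos (-UU u x k)
    linarith
  refine (sum_le_sum h).trans (le_of_eq ?_)
  simp

theorem exp_half {U : ℝ} (hU : 0 ≤ U) : U * Real.exp (-U) ≤ Real.exp (-(U / 2)) := by
  have h1 : U / 2 + 1 ≤ Real.exp (U / 2) := Real.add_one_le_exp _
  have h2 : Real.exp (-U) = Real.exp (-(U / 2)) * Real.exp (-(U / 2)) := by
    rw [← Real.exp_add]; ring_nf
  have h3 : Real.exp (U / 2) * Real.exp (-(U / 2)) = 1 := by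
    rw [← Real.exp_add]; simp
  have h4 := Real.exp_pos (-(U / 2))
  have h6 : U ≤ Real.exp (U / 2) := by
    have h7 := Real.quadratic_le_exp_of_nonneg (x := U / 2) (by linarith)
    nlinarith [sq_nonneg (U / 2 - 1)]
  rw [h2, ← mul_assoc]
  calc U * Real.exp (-(U / 2)) * Real.exp (-(U / 2)) ≤
        (Real.exp (U / 2) * Real.exp (-(U / 2))) * Real.exp (-(U / 2)) :=
        mul_le_mul_of_nonneg_right (mul_le_mul_of_nonneg_right h6 h4.le) h4.le
    _ = _ := by rw [h3, one_mul]

/-- **The drift of the potential.** -/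
theorem drift (hcard : 4 ≤ Fintype.card Q.Ex) (hu : Adm Q u κ τ) {x : Finset Q.Ex} (hx : St x)
    {K ε p : ℝ} (hK : K = 4 + 2 * κ * (Q.n + Q.g)) (hε : ε = Q.L * (2 * τ * (Q.n + Q.g)))
    (hp : p = 1 / (Fintype.card Q.Ex : ℝ)) (hεL : Q.L * ε ≤ 1) (hL : Q.L ≤ Fintype.card Q.Ex)
    (hS : (2 * K * Q.L + 1) * p ^ 2 ≤ 1)
    (hP : 12 * (K * (2 * Real.log (Fintype.card Q.Ex)) + 1) ≤ (Q.n * Q.N * Q.M : ℝ) * p ^ 2) :
    ∑ F : Finset Q.Ex, flipProb F * (Phi u x - Phi u (nx x F)) ≤ (8 * K + 2) * p ^ 2 := by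
  classical
  have hcard2 : 2 ≤ Fintype.card Q.Ex := by omega
  have hsum1 := sum_flipProb (E := Q.Ex) hcard2
  have hκ := hu.κ0
  have hτ := hu.τ0
  have hK4 : 4 ≤ K := by rw [hK]; have : 0 ≤ 2 * κ * (Q.n + Q.g) := by positivity
                         linarith
  have hε0 : 0 ≤ ε := by rw [hε]; positivity
  have hmR : (4 : ℝ) ≤ Fintype.card Q.Ex := by exact_mod_cast hcard
  have hp0 : 0 < p := by rw [hp]; positivity
  -- exchange of the sums
  have e1 : ∑ F : Finset Q.Ex, flipProb F * (Phi u x - Phi u (nx x F)) =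
      ∑ k : Fin Q.L, (∑ F : Finset Q.Ex, flipProb F * Real.exp (-UU u (nx x F) k) -
        Real.exp (-UU u x k)) := by
    have e2 : ∀ F : Finset Q.Ex, flipProb F * (Phi u x - Phi u (nx x F)) =
        ∑ k : Fin Q.L, flipProb F * (Real.exp (-UU u (nx x F) k) - Real.exp (-UU u x k)) := by
      intro F
      unfold Phi
      rw [← sum_sub_distrib, mul_sum]
      refine sum_congr rfl fun k _ => ?_
      ring
    rw [sum_congr rfl fun F _ => e2 F, sum_comm]
    refine sum_congr rfl fun k _ => ?_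
    simp only [mul_sub]
    rw [sum_sub_distrib, ← sum_mul, hsum1, one_mul]
  rw [e1]
  by_cases hall : ∀ j, u (pos x j) = 0
  · -- nothing alive
    have h1 : ∀ k, UU u x k = 0 := fun k => by
      unfold UU
      exact sum_eq_zero fun j _ => hall j
    have h2 : ∀ k ∈ (Finset.univ : Finset (Fin Q.L)),
        (∑ F : Finset Q.Ex, flipProb F * Real.exp (-UU u (nx x F) k) -
        Real.exp (-UU u x k)) ≤ 0 := by
      intro k _
      rw [h1 k, neg_zero, Real.exp_zero]
      have h3 : ∑ F : Finset Q.Ex, flipProb F * Real.exp (-UU u (nx x F) k) ≤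
          ∑ F : Finset Q.Ex, flipProb F := by
        refine sum_le_sum fun F _ => ?_
        have h4 := Real.exp_le_one_iff.2 (neg_nonpos.2 (hu.UU_nonneg (nx x F) k))
        have h5 := flipProb_nonneg (E := Q.Ex) hcard2 F
        nlinarith
      rw [hsum1] at h3
      linarith
    refine (sum_nonpos h2).trans ?_
    positivity
  push Not at hall
  -- the first block that is alive
  have hne : ((Finset.univ : Finset (Fin Q.L)).filter (fun j => 0 < u (pos x j))).Nonempty := by
    obtain ⟨j, hj⟩ := hall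
    exact ⟨j, mem_filter.2 ⟨mem_univ _, lt_of_le_of_ne (hu.nonneg _) (Ne.symm hj)⟩⟩
  obtain ⟨j0, hj0, hj0min⟩ := Finset.exists_min_image _ (fun j : Fin Q.L => j) hne
  rw [mem_filter] at hj0
  have hzero : ∀ j, j < j0 → u (pos x j) = 0 := by
    intro j hj
    by_contra h
    have h1 := hj0min j (mem_filter.2 ⟨mem_univ _, lt_of_le_of_ne (hu.nonneg _) (Ne.symm h)⟩)
    exact absurd hj (not_lt.2 h1)
  have hL0 : (0 : ℝ) < Q.L := by
    have := j0.2
    exact_mod_cast (by omega : 0 < Q.L)
  -- general bound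
  have hUle : ∀ k, UU u x k ≤ 2 * Q.L := by
    intro k
    unfold UU
    have h1 : ∑ j ∈ Iic k, u (pos x j) ≤ ∑ _j ∈ Iic k, (2 : ℝ) :=
      sum_le_sum fun j _ => hu.le_two x j
    refine h1.trans ?_
    rw [sum_const, nsmul_eq_mul]
    have h2 : ((Iic k).card : ℝ) ≤ Q.L := by
      have := card_le_univ (Iic k)
      rw [Fintype.card_fin] at this
      exact_mod_cast this
    nlinarith
  have hS1 : ∀ k, Real.exp ((K * UU u x k + ε) * p ^ 2) - 1 ≤ 2 * ((K * UU u x k + ε) * p ^ 2) := by
    intro k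
    have h0 := hu.UU_nonneg x k
    have h1 := hUle k
    have h2 : ε ≤ 1 := by
      have h3 : (1 : ℝ) ≤ Q.L := by
        have := j0.2
        exact_mod_cast (by omega : 1 ≤ Q.L)
      nlinarith
    have h3 : 0 ≤ (K * UU u x k + ε) * p ^ 2 := by positivity
    have h4 : (K * UU u x k + ε) * p ^ 2 ≤ 1 := by
      refine le_trans ?_ hS
      apply mul_le_mul_of_nonneg_right _ (by positivity)
      nlinarith
    have h5 := Real.exp_bound' h3 h4 (n := 1) (by norm_num)
    simp at h5
    have h6 := Real.abs_exp_sub_one_le (x := (K * UU u x k + ε) * p ^ 2) (by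
      rw [abs_of_nonneg h3]; exact h4)
    rw [abs_of_nonneg h3] at h6
    exact (le_abs_self _).trans h6
  have hgen : ∀ k, ∑ F : Finset Q.Ex, flipProb F * Real.exp (-UU u (nx x F) k) -
      Real.exp (-UU u x k) ≤ Real.exp (-UU u x k) * (2 * ((K * UU u x k + ε) * p ^ 2)) := by
    intro k
    have h1 := step_le hcard2 hu hx k ∅ (by simp)
    rw [sum_empty, mul_zero, sub_zero, ← hK, ← hε, ← hp] at h1
    have h2 := hS1 k
    have h3 := Real.exp_pos (-UU u x k)
    nlinarith
  have hgen2 : ∀ k, Real.exp (-UU u x k) * (2 * ((K * UU u x k + ε) * p ^ 2)) ≤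
      2 * p ^ 2 * (ε + K * Real.exp (-(UU u x k / 2))) := by
    intro k
    have h1 := exp_half (hu.UU_nonneg x k)
    have h2 := Real.exp_le_one_iff.2 (neg_nonpos.2 (hu.UU_nonneg x k))
    have h3 : Real.exp (-UU u x k) * (2 * ((K * UU u x k + ε) * p ^ 2)) =
        2 * p ^ 2 * (K * (UU u x k * Real.exp (-UU u x k)) + ε * Real.exp (-UU u x k)) := by ring
    rw [h3]
    apply mul_le_mul_of_nonneg_left _ (by positivity)
    have h4 : K * (UU u x k * Real.exp (-UU u x k)) ≤ K * Real.exp (-(UU u x k / 2)) :=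
      mul_le_mul_of_nonneg_left h1 (by linarith)
    nlinarith
  -- the bound for each block
  set r := Real.exp (-(1 / 2)) with hr
  have hr0 : 0 ≤ r := (Real.exp_pos _).le
  have hr1 : r ≤ 2 / 3 := by
    rw [hr, Real.exp_neg]
    have h1 : (3 / 2 : ℝ) ≤ Real.exp (1 / 2) := by
      have := Real.add_one_le_exp (1 / 2 : ℝ)
      linarith
    rw [show (2 / 3 : ℝ) = (3 / 2)⁻¹ by norm_num]
    exact inv_anti₀ (by norm_num) h1
  have hblock : ∀ k ∈ (Finset.univ : Finset (Fin Q.L)),
      (∑ F : Finset Q.Ex, flipProb F * Real.exp (-UU u (nx x F) k) - Real.exp (-UU u x k)) ≤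
      2 * p ^ 2 * (ε + K * (if j0.val ≤ k.val then r ^ (k.val - j0.val) else 0) + K / Q.L) := by
    intro k _
    have hKL : 0 ≤ K / Q.L := by positivity
    rcases lt_or_ge k j0 with hk | hk
    · -- before the first alive block
      have h1 : UU u x k = 0 := by
        unfold UU
        exact sum_eq_zero fun j hj => hzero j (lt_of_le_of_lt (mem_Iic.1 hj) hk)
      have h2 := hgen k
      rw [h1, neg_zero, Real.exp_zero, mul_zero, zero_add, one_mul] at h2
      rw [if_neg (by rw [Fin.lt_def] at hk; omega), mul_zero, add_zero, mul_add]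
      rw [h1, neg_zero, Real.exp_zero]
      have h3 : 0 ≤ 2 * p ^ 2 * (K / Q.L) := by positivity
      linarith
    · rw [if_pos (by rw [Fin.le_def] at hk; exact hk)]
      by_cases hbad : ∃ j, j0 < j ∧ j ≤ k ∧ u (pos x j) ≤ 1
      · -- some block can be restarted
        have hne2 : ((Finset.univ : Finset (Fin Q.L)).filter
            (fun j => j0 < j ∧ u (pos x j) ≤ 1)).Nonempty := by
          obtain ⟨j, hj⟩ := hbad
          exact ⟨j, mem_filter.2 ⟨mem_univ _, hj.1, hj.2.2⟩⟩
        obtain ⟨j', hj', hj'min⟩ := Finset.exists_min_image _ (fun j : Fin Q.L => j) hne2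
        rw [mem_filter] at hj'
        have hj'k : j' ≤ k := by
          obtain ⟨j, hj⟩ := hbad
          exact (hj'min j (mem_filter.2 ⟨mem_univ _, hj.1, hj.2.2⟩)).trans hj.2.1
        have hj'0 : j0.val < j'.val := by
          have := hj'.2.1
          rwa [Fin.lt_def] at this
        obtain ⟨j, hj⟩ : ∃ j : Fin Q.L, j'.val = j.val + 1 :=
          ⟨⟨j'.val - 1, by omega⟩, by simp only; omega⟩
        have hjpos : 0 < u (pos x j) := by
          by_cases h : j = j0
          · rw [h]; exact hj0.2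
          · by_contra hcon
            have h1 : j0 < j := by
              rw [Fin.lt_def]
              have : j.val ≠ j0.val := fun h' => h (Fin.ext h')
              omega
            have h2 := hj'min j (mem_filter.2 ⟨mem_univ _, h1, by linarith⟩)
            rw [Fin.le_def] at h2
            omega
        obtain ⟨𝒢, h𝒢1, h𝒢2⟩ := family hcard hu hx hj hjpos hj'.2.2
        have h1 := step_le hcard2 hu hx k 𝒢 (fun F hF => h𝒢2 F hF k hj'k)
        rw [← hK, ← hε, ← hp] at h1
        rw [← hp] at h𝒢1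
        have h2 := hS1 k
        have hW := Real.exp_pos (-UU u x k)
        have hlog : 0 ≤ Real.log (Fintype.card Q.Ex) := Real.log_nonneg (by linarith)
        by_cases hU : UU u x k ≤ 2 * Real.log (Fintype.card Q.Ex)
        · -- the restart wins
          have h3 : 2 * ((K * UU u x k + ε) * p ^ 2) ≤ 1 / 2 * ∑ F ∈ 𝒢, flipProb F := by
            have h4 : (Q.n * Q.N * Q.M : ℝ) * (1 / 3 * p ^ 4) =
                (Q.n * Q.N * Q.M : ℝ) * p ^ 2 * (1 / 3 * p ^ 2) := by ring
            rw [h4] at h𝒢1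
            have hε1 : ε ≤ 1 := by
              have h3 : (1 : ℝ) ≤ Q.L := by
                have := j0.2
                exact_mod_cast (by omega : 1 ≤ Q.L)
              nlinarith
            have h5 : 12 * (K * UU u x k + ε) ≤ (Q.n * Q.N * Q.M : ℝ) * p ^ 2 := by
              refine le_trans ?_ hP
              have : K * UU u x k ≤ K * (2 * Real.log (Fintype.card Q.Ex)) :=
                mul_le_mul_of_nonneg_left hU (by linarith)
              linarith
            have h6 : 12 * (K * UU u x k + ε) * (1 / 3 * p ^ 2) ≤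
                (Q.n * Q.N * Q.M : ℝ) * p ^ 2 * (1 / 3 * p ^ 2) :=
              mul_le_mul_of_nonneg_right h5 (by positivity)
            linarith
          have h7 : Real.exp ((K * UU u x k + ε) * p ^ 2) - 1 / 2 * ∑ F ∈ 𝒢, flipProb F ≤ 1 := by
            linarith
          have h8 : Real.exp (-UU u x k) * (Real.exp ((K * UU u x k + ε) * p ^ 2) -
              1 / 2 * ∑ F ∈ 𝒢, flipProb F) ≤ Real.exp (-UU u x k) * 1 :=
            mul_le_mul_of_nonneg_left h7 hW.le
          have h9 : 0 ≤ 2 * p ^ 2 * (ε + K * r ^ (k.val - j0.val) + K / Q.L) := by positivity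
          linarith
        · -- very many alive blocks
          push Not at hU
          refine (hgen k).trans ((hgen2 k).trans ?_)
          apply mul_le_mul_of_nonneg_left _ (by positivity)
          have h3 : Real.exp (-(UU u x k / 2)) ≤ 1 / Q.L := by
            have h4 : Real.exp (-(UU u x k / 2)) ≤ Real.exp (-Real.log (Fintype.card Q.Ex)) :=
              Real.exp_le_exp.2 (by linarith)
            have h5 : Real.exp (-Real.log (Fintype.card Q.Ex)) =
                ((Fintype.card Q.Ex : ℕ) : ℝ)⁻¹ := by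
              rw [Real.exp_neg, Real.exp_log (by linarith)]
            rw [h5] at h4
            refine h4.trans ?_
            rw [one_div]
            exact inv_anti₀ hL0 (by exact_mod_cast hL)
          have h5 : K * Real.exp (-(UU u x k / 2)) ≤ K / Q.L := by
            rw [div_eq_mul_one_div K]
            exact mul_le_mul_of_nonneg_left h3 (by linarith)
          have h6 : 0 ≤ K * r ^ (k.val - j0.val) := by positivity
          linarith
      · -- chain of alive blocks
        push Not at hbad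
        refine (hgen k).trans ((hgen2 k).trans ?_)
        apply mul_le_mul_of_nonneg_left _ (by positivity)
        have h1 : ((k.val - j0.val : ℕ) : ℝ) ≤ UU u x k := by
          unfold UU
          have h2 : ∑ _j ∈ Ioc j0 k, (1 : ℝ) ≤ ∑ j ∈ Ioc j0 k, u (pos x j) := by
            refine sum_le_sum fun j hj => ?_
            rw [mem_Ioc] at hj
            exact (hbad j hj.1 hj.2).le
          rw [sum_const, nsmul_eq_mul, mul_one, Fin.card_Ioc] at h2
          refine h2.trans ?_
          refine sum_le_sum_of_subset_of_nonneg ?_ fun _ _ _ => hu.nonneg _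
          intro j hj
          rw [mem_Ioc] at hj
          exact mem_Iic.2 hj.2
        have h2 : Real.exp (-(UU u x k / 2)) ≤ r ^ (k.val - j0.val) := by
          rw [hr, ← Real.exp_nat_mul]
          apply Real.exp_le_exp.2
          linarith
        have h3 : K * Real.exp (-(UU u x k / 2)) ≤ K * r ^ (k.val - j0.val) :=
          mul_le_mul_of_nonneg_left h2 (by linarith)
        linarith
  refine (sum_le_sum hblock).trans ?_
  rw [← mul_sum, sum_add_distrib, sum_add_distrib, ← mul_sum]
  have h1 : ∑ k : Fin Q.L, (if j0.val ≤ k.val then r ^ (k.val - j0.val) else 0) ≤ 3 := by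
    rw [Fin.sum_univ_eq_sum_range (fun k => if j0.val ≤ k then r ^ (k - j0.val) else 0) Q.L]
    exact geo_sum _ _ hr0 hr1
  rw [sum_const, sum_const, card_univ, Fintype.card_fin, nsmul_eq_mul, nsmul_eq_mul]
  have h2 : (Q.L : ℝ) * (K / Q.L) = K := by field_simp
  rw [h2]
  have h3 : K * ∑ k : Fin Q.L, (if j0.val ≤ k.val then r ^ (k.val - j0.val) else 0) ≤ K * 3 :=
    mul_le_mul_of_nonneg_left h1 (by linarith)
  have h4 : 0 < p ^ 2 := by positivity
  nlinarith

end Pm

end Pool.Agent.V5helper67.EC
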