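import Pool.Agent.V5helper67.CK.Weights

open Finset

namespace Pool.Agent.V5helper67.EC

open Pool.Agent.Helper120.EaModel Pool.Agent.V5helper67.EA

namespace Pm

variable {Q : Pm}

/-- what must be flipped in order to move the position of a block -/
theorem fact {x : Finset Q.Ex} (hx : St x) (j : Fin Q.L) (hpos : pos x j < Q.g) :
    ∃ (e0 f0 : Q.Ex) (U : Finset Q.Ex), bl e0 = some j ∧ (∀ f ∈ U, bl f = some j) ∧
      e0 ∉ U ∧ f0 ∈ U ∧ U.card ≤ Q.n + Q.g ∧
      ∀ F : Finset Q.Ex, (pos x j + 1 ≤ pos ((GG Q).select x (symmDiff x F)) j →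
          e0 ∈ F ∧ ∃ f ∈ U, f ∈ F) ∧
        (pos x j + 2 ≤ pos ((GG Q).select x (symmDiff x F)) j → e0 ∈ F ∧ f0 ∈ F) := by
  classical
  obtain ⟨i, hi⟩ : ∃ i, i = pos x j := ⟨_, rfl⟩
  have hi1 : 1 ≤ i := by rw [hi]; exact one_le_pos x j
  rw [← hi] at hpos
  have hRi : R x j i := by rw [hi]; exact R_pos (by omega)
  obtain ⟨b, hb1, hb2, hb3, hb4⟩ := run_end hRi
  obtain ⟨hig, k0, hk0⟩ := id hRi
  have hex : ∃ l, (l = i - 1 ∨ l = i) ∧ ¬ C x j l := by
    by_contra hcon
    push Not at hcon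
    exact no_two hx j (r := i - 1) (s := i) (by omega) hig (fun r h1 h2 => by
      have : r = i := by omega
      exact this ▸ hRi) (hcon _ (Or.inl rfl)) (hcon _ (Or.inr rfl))
  obtain ⟨l0, hl0, hl0C⟩ := hex
  have hl0g : l0 < Q.g := by omega
  set me : ℕ → Q.Ex := fun l => if h : l < Q.g then se j ⟨l, h⟩ ⟨mis x j l, mis_lt x j l⟩
    else re j ⟨i, hig⟩ k0 with hme
  have hmeg : ∀ l (h : l < Q.g), me l = se j ⟨l, h⟩ ⟨mis x j l, mis_lt x j l⟩ := by
    intro l h
    simp only [hme, h, dif_pos]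
  set U1 : Finset Q.Ex := if h : b + 1 < Q.g then
    (Finset.univ : Finset (Fin (Q.rm (b + 1)))).image (fun k => re j ⟨b + 1, h⟩ k) else ∅ with hU1
  set U2 : Finset Q.Ex := ((Icc (i - 1) b).filter (fun l => ¬ C x j l)).image me with hU2
  have hU2mem : ∀ l, i - 1 ≤ l → l ≤ b → ¬ C x j l → me l ∈ U2 := by
    intro l h1 h2 h3
    rw [hU2, mem_image]
    exact ⟨l, mem_filter.2 ⟨mem_Icc.2 ⟨h1, h2⟩, h3⟩, rfl⟩
  have hmex : ∀ l, l ≤ b → ¬ C x j l → me l ∉ x := by
    intro l h1 h2
    rw [hmeg l (by omega)]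
    exact mis_notMem h2 _
  have hUx : ∀ f ∈ U1 ∪ U2, f ∉ x := by
    intro f hf
    rw [mem_union] at hf
    rcases hf with hf | hf
    · rw [hU1] at hf
      split_ifs at hf with h
      · rw [mem_image] at hf
        obtain ⟨k, _, rfl⟩ := hf
        exact fun h' => hb4 ⟨h, k, h'⟩
      · exact absurd hf (notMem_empty _)
    · rw [hU2, mem_image] at hf
      obtain ⟨l, hl, rfl⟩ := hf
      rw [mem_filter, mem_Icc] at hl
      exact hmex l hl.1.2 hl.2
  -- consequences for a tree `y`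
  have key1 : ∀ y, (GG Q).IsSpanningTree y → i + 1 ≤ pos y j →
      re j ⟨i, hig⟩ k0 ∉ y ∧ ∃ f ∈ U1 ∪ U2, f ∈ y := by
    intro y hy hpy
    have hn : ∀ r, r ≤ i → ¬ R y j r := fun r hr => not_R_lt (by omega)
    refine ⟨fun h => hn i le_rfl ⟨hig, k0, h⟩, ?_⟩
    by_contra hcon
    push Not at hcon
    have hc1 : C y j (i - 1) := by
      obtain ⟨l, h1, h2, h3⟩ := exists_complete hy j (a := i - 1) (b := i - 1) le_rfl (by omega)
        (hn _ (by omega)) (hn _ (by omega))
      have : l = i - 1 := by omega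
      exact this ▸ h3
    have hc2 : C x j (i - 1) := by
      by_contra h
      have h1 := hcon _ (mem_union_right _ (hU2mem (i - 1) le_rfl (by omega) h))
      rw [hmeg (i - 1) (by omega)] at h1
      exact h1 (hc1 _ _)
    have hc3 : ∀ l, i ≤ l → l ≤ b → ¬ C x j l := by
      intro l h1 h2 h3
      exact no_two hx j (r := i - 1) (s := l) (by omega) (by omega)
        (fun r h4 h5 => hb3 r (by omega) (by omega)) hc2 h3
    have hb' : ¬ R y j (b + 1) := by
      rintro ⟨h, k, hk⟩
      refine hcon (re j ⟨b + 1, h⟩ k) (mem_union_left _ ?_) hk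
      rw [hU1, dif_pos h]
      exact mem_image_of_mem _ (mem_univ k)
    obtain ⟨l, h1, h2, h3⟩ := exists_complete hy j (a := i) (b := b) hb1 hb2
        (hn _ le_rfl) hb'
    have h4 := hcon _ (mem_union_right _ (hU2mem l (by omega) h2 (hc3 l h1 h2)))
    rw [hmeg l (by omega)] at h4
    exact h4 (h3 _ _)
  have key2 : ∀ y, (GG Q).IsSpanningTree y → i + 2 ≤ pos y j → me l0 ∈ y := by
    intro y hy hpy
    have hn : ∀ r, r ≤ i + 1 → ¬ R y j r := fun r hr => not_R_lt (by omega)
    have hc1 : C y j l0 := by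
      obtain ⟨l, h1, h2, h3⟩ := exists_complete hy j (a := l0) (b := l0) le_rfl hl0g
        (hn _ (by omega)) (hn _ (by omega))
      have : l = l0 := by omega
      exact this ▸ h3
    rw [hmeg l0 hl0g]
    exact hc1 _ _
  have hl0m : me l0 ∈ U2 := by
    apply hU2mem l0
    · rcases hl0 with h | h <;> omega
    · rcases hl0 with h | h <;> omega
    · exact hl0C
  refine ⟨re j ⟨i, hig⟩ k0, me l0, U1 ∪ U2, rfl, ?_, ?_, ?_, ?_, ?_⟩
  · intro f hf
    rw [mem_union] at hf
    rcases hf with hf | hf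
    · rw [hU1] at hf
      split_ifs at hf with h
      · rw [mem_image] at hf
        obtain ⟨k, _, rfl⟩ := hf
        rfl
      · exact absurd hf (notMem_empty _)
    · rw [hU2, mem_image] at hf
      obtain ⟨l, hl, rfl⟩ := hf
      rw [mem_filter, mem_Icc] at hl
      rw [hmeg l (by omega)]
      rfl
  · intro h
    exact hUx _ h hk0
  · exact mem_union_right _ hl0m
  · refine (card_union_le _ _).trans (Nat.add_le_add ?_ ?_)
    · rw [hU1]
      split_ifs with h
      · refine card_image_le.trans ?_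
        rw [card_univ, Fintype.card_fin]
        unfold rm
        rw [if_neg (show ¬ (b + 1 = 0) by omega), if_neg (show ¬ (b + 1 = 1) by omega)]
      · simp
    · rw [hU2]
      refine card_image_le.trans ((card_filter_le _ _).trans ?_)
      rw [Nat.card_Icc]
      omega
  · intro F
    obtain ⟨y, hy⟩ : ∃ y, y = (GG Q).select x (symmDiff x F) := ⟨_, rfl⟩
    rw [← hy, ← hi]
    have hcase : y = x ∨ (y = symmDiff x F ∧ (GG Q).IsSpanningTree y) := by
      rw [hy]
      unfold WGraph.select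
      split_ifs with h
      · exact Or.inr ⟨rfl, h.1⟩
      · exact Or.inl rfl
    have hm : ∀ f, f ∉ x → f ∈ symmDiff x F → f ∈ F := by
      intro f h1 h2
      rw [mem_symmDiff] at h2
      rcases h2 with h2 | h2
      · exact absurd h2.1 h1
      · exact h2.1
    have hm' : ∀ f, f ∈ x → f ∉ symmDiff x F → f ∈ F := by
      intro f h1 h2
      by_contra h3
      exact h2 (mem_symmDiff.2 (Or.inl ⟨h1, h3⟩))
    constructor
    · intro h
      rcases hcase with h1 | ⟨h1, h2⟩
      · rw [h1] at h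
        omega
      · obtain ⟨h3, f, h4, h5⟩ := key1 y h2 h
        rw [h1] at h3 h5
        exact ⟨hm' _ hk0 h3, f, h4, hm f (hUx f h4) h5⟩
    · intro h
      rcases hcase with h1 | ⟨h1, h2⟩
      · rw [h1] at h
        omega
      · obtain ⟨h3, _⟩ := key1 y h2 (by omega)
        have h5 := key2 y h2 h
        rw [h1] at h3 h5
        exact ⟨hm' _ hk0 h3, hm _ (hmex l0 (by omega) hl0C) h5⟩

end Pm

end Pool.Agent.V5helper67.EC
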