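import Pool.Agent.V5helper67.EA.Upper

open Finset MeasureTheory ProbabilityTheory
open scoped ENNReal

namespace Pool.Agent.V5helper67.EC

open Pool.Agent.Helper120.EaModel Pool.Agent.Helper120.EaJ4 Pool.Agent.V5helper67.EA

variable {E : Type} [Fintype E] [DecidableEq E]

/-- all bits of a set are flipped -/
theorem sup_prob (A : Finset E) :
    ∑ F : Finset E, flipProb F * (if A ⊆ F then 1 else 0) = (1 / (Fintype.card E : ℝ)) ^ A.card := by
  classical
  have h := Finset.sum_pow_mul_eq_add_pow (1 / (Fintype.card E : ℝ))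
    (1 - 1 / (Fintype.card E : ℝ)) (Aᶜ : Finset E)
  rw [show (1 / (Fintype.card E : ℝ)) + (1 - 1 / (Fintype.card E : ℝ)) = 1 by ring, one_pow] at h
  have h1 : ∑ F : Finset E, flipProb F * (if A ⊆ F then 1 else 0) =
      ∑ F ∈ (Finset.univ : Finset (Finset E)).filter (fun F => A ⊆ F), flipProb F := by
    rw [sum_filter]
    refine sum_congr rfl fun F _ => ?_
    split_ifs <;> simp
  rw [h1]
  have h2 : ∑ F ∈ (Finset.univ : Finset (Finset E)).filter (fun F => A ⊆ F), flipProb F =
      ∑ t ∈ (Aᶜ).powerset, flipProb (A ∪ t) := by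
    symm
    refine sum_bij (fun t _ => A ∪ t) ?_ ?_ ?_ ?_
    · intro t _
      simp
    · intro t ht t' ht' h
      rw [mem_powerset] at ht ht'
      have e1 : t = (A ∪ t) \ A := by
        ext e
        simp only [mem_sdiff, mem_union]
        constructor
        · intro he
          exact ⟨Or.inr he, mem_compl.1 (ht he)⟩
        · rintro ⟨h1 | h1, h2⟩
          · exact absurd h1 h2
          · exact h1
      have e2 : t' = (A ∪ t') \ A := by
        ext e
        simp only [mem_sdiff, mem_union]
        constructor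
        · intro he
          exact ⟨Or.inr he, mem_compl.1 (ht' he)⟩
        · rintro ⟨h1 | h1, h2⟩
          · exact absurd h1 h2
          · exact h1
      rw [e1, e2, h]
    · intro F hF
      rw [mem_filter] at hF
      refine ⟨F \ A, ?_, ?_⟩
      · rw [mem_powerset]
        intro e he
        rw [mem_compl]
        exact (mem_sdiff.1 he).2
      · exact union_sdiff_of_subset hF.2
    · intro t _
      rfl
  rw [h2]
  have h3 : ∀ t ∈ (Aᶜ).powerset, flipProb (A ∪ t) = (1 / (Fintype.card E : ℝ)) ^ A.card *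
      ((1 / (Fintype.card E : ℝ)) ^ t.card *
        (1 - 1 / (Fintype.card E : ℝ)) ^ ((Aᶜ : Finset E).card - t.card)) := by
    intro t ht
    rw [mem_powerset] at ht
    have hd : Disjoint A t := by
      rw [disjoint_left]
      intro e h1 h2
      exact (mem_compl.1 (ht h2)) h1
    unfold flipProb
    rw [card_union_of_disjoint hd, card_compl, pow_add]
    have : Fintype.card E - (A.card + t.card) = Fintype.card E - A.card - t.card := by omega
    rw [this]
    ring
  rw [sum_congr rfl h3, ← mul_sum, h, mul_one]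

/-- independence of the flips in disjoint sets -/
theorem prod_prob {ι : Type} [DecidableEq ι] (s : Finset ι) (e : ι → E) (U : ι → Finset E)
    (c : ι → E → ℝ) (he : ∀ j ∈ s, e j ∉ U j)
    (hdis : ∀ j ∈ s, ∀ j' ∈ s, j ≠ j' → Disjoint (insert (e j) (U j)) (insert (e j') (U j'))) :
    ∀ A : Finset E, (∀ j ∈ s, Disjoint A (insert (e j) (U j))) →
    ∑ F : Finset E, flipProb F * ((if A ⊆ F then 1 else 0) *
      ∏ j ∈ s, (1 + ∑ f ∈ U j, c j f * (if e j ∈ F ∧ f ∈ F then 1 else 0))) =
      (1 / (Fintype.card E : ℝ)) ^ A.card *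
        ∏ j ∈ s, (1 + (∑ f ∈ U j, c j f) * (1 / (Fintype.card E : ℝ)) ^ 2) := by
  classical
  induction s using Finset.induction_on with
  | empty =>
    intro A _
    simp only [prod_empty, mul_one]
    exact sup_prob A
  | insert j s hj ih =>
    intro A hA
    have ih' := ih (fun i hi => he i (mem_insert_of_mem hi))
      (fun i hi i' hi' => hdis i (mem_insert_of_mem hi) i' (mem_insert_of_mem hi'))
    simp only [prod_insert hj]
    have e1 : ∀ F : Finset E, flipProb F * ((if A ⊆ F then 1 else 0) *
        ((1 + ∑ f ∈ U j, c j f * (if e j ∈ F ∧ f ∈ F then 1 else 0)) *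
          ∏ i ∈ s, (1 + ∑ f ∈ U i, c i f * (if e i ∈ F ∧ f ∈ F then 1 else 0)))) =
        flipProb F * ((if A ⊆ F then 1 else 0) *
          ∏ i ∈ s, (1 + ∑ f ∈ U i, c i f * (if e i ∈ F ∧ f ∈ F then 1 else 0))) +
        ∑ f ∈ U j, c j f * (flipProb F * ((if insert (e j) (insert f A) ⊆ F then 1 else 0) *
          ∏ i ∈ s, (1 + ∑ f ∈ U i, c i f * (if e i ∈ F ∧ f ∈ F then 1 else 0)))) := by
      intro F
      have e2 : ∀ f ∈ U j, c j f * (flipProb F * ((if insert (e j) (insert f A) ⊆ F then 1 else 0) *
          ∏ i ∈ s, (1 + ∑ f ∈ U i, c i f * (if e i ∈ F ∧ f ∈ F then 1 else 0)))) =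
          (flipProb F * (if A ⊆ F then 1 else 0) *
          ∏ i ∈ s, (1 + ∑ f ∈ U i, c i f * (if e i ∈ F ∧ f ∈ F then 1 else 0))) *
            (c j f * (if e j ∈ F ∧ f ∈ F then 1 else 0)) := by
        intro f _
        have e3 : (if insert (e j) (insert f A) ⊆ F then (1 : ℝ) else 0) =
            (if A ⊆ F then 1 else 0) * (if e j ∈ F ∧ f ∈ F then 1 else 0) := by
          by_cases h1 : A ⊆ F <;> by_cases h2 : e j ∈ F <;> by_cases h3 : f ∈ F <;>
            simp [h1, h2, h3, insert_subset_iff]
        rw [e3]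
        ring
      rw [sum_congr rfl e2, ← mul_sum]
      ring
    rw [sum_congr rfl fun F _ => e1 F, sum_add_distrib, ih' A (fun i hi => hA i (mem_insert_of_mem hi)),
      sum_comm]
    have e4 : ∀ f ∈ U j, ∑ F : Finset E, c j f * (flipProb F *
        ((if insert (e j) (insert f A) ⊆ F then 1 else 0) *
          ∏ i ∈ s, (1 + ∑ f ∈ U i, c i f * (if e i ∈ F ∧ f ∈ F then 1 else 0)))) =
        c j f * ((1 / (Fintype.card E : ℝ)) ^ (A.card + 2) *
          ∏ i ∈ s, (1 + (∑ f ∈ U i, c i f) * (1 / (Fintype.card E : ℝ)) ^ 2)) := by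
      intro f hf
      rw [← mul_sum, ih']
      · have hc : (insert (e j) (insert f A)).card = A.card + 2 := by
          have hAj := hA j (mem_insert_self j s)
          rw [disjoint_right] at hAj
          have h1 : f ∉ A := hAj (mem_insert_of_mem hf)
          have h2 : e j ∉ A := hAj (mem_insert_self _ _)
          have h3 : e j ≠ f := by
            intro h
            exact he j (mem_insert_self j s) (h ▸ hf)
          rw [card_insert_of_notMem, card_insert_of_notMem h1]
          rw [mem_insert]
          rintro (h | h)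
          · exact h3 h
          · exact h2 h
        rw [hc]
      · intro i hi
        have hne : j ≠ i := by
          intro h
          exact hj (h ▸ hi)
        have h1 := hdis j (mem_insert_self j s) i (mem_insert_of_mem hi) hne
        rw [disjoint_left] at h1
        rw [disjoint_left]
        intro a ha
        rw [mem_insert, mem_insert] at ha
        rcases ha with ha | ha | ha
        · rw [ha]
          exact h1 (mem_insert_self _ _)
        · rw [ha]
          exact h1 (mem_insert_of_mem hf)
        · have h2 := hA i (mem_insert_of_mem hi)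
          rw [disjoint_left] at h2
          exact h2 ha
    rw [sum_congr rfl e4, ← sum_mul]
    ring

theorem four_prob (hcard : 4 ≤ Fintype.card E) {F : Finset E} (hF : F.card = 4) :
    1 / 3 * (1 / (Fintype.card E : ℝ)) ^ 4 ≤ flipProb F := by
  have hmR : (4 : ℝ) ≤ Fintype.card E := by exact_mod_cast hcard
  obtain ⟨m, hm⟩ : ∃ m : ℕ, m = Fintype.card E := ⟨_, rfl⟩
  unfold flipProb
  rw [hF, ← hm]
  rw [← hm] at hcard hmR
  have hm0 : (0 : ℝ) < m := by linarith
  have hb0 : (0 : ℝ) < 1 - 1 / (m : ℝ) := by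
    have : 1 / (m : ℝ) ≤ 1 / 4 := one_div_le_one_div_of_le (by norm_num) hmR
    linarith
  have hb1 : 1 - 1 / (m : ℝ) ≤ 1 := by
    have : 0 ≤ 1 / (m : ℝ) := by positivity
    linarith
  have h1 : (1 - 1 / (m : ℝ)) ^ (m - 1) ≤ (1 - 1 / (m : ℝ)) ^ (m - 4) :=
    pow_le_pow_of_le_one hb0.le hb1 (by omega)
  have h2 : (1 - 1 / (m : ℝ)) ^ (m - 1) =
      Real.exp (((m - 1 : ℕ) : ℝ) * Real.log (1 - 1 / (m : ℝ))) := by
    rw [Real.exp_nat_mul, Real.exp_log hb0]
  have h3 := Real.one_sub_inv_le_log_of_pos hb0
  have h4 : ((m - 1 : ℕ) : ℝ) = m - 1 := by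
    rw [Nat.cast_sub (by omega)]; simp
  have h7 : (0 : ℝ) < (m : ℝ) - 1 := by linarith
  have h5 : 1 - (1 - 1 / (m : ℝ))⁻¹ = -1 / ((m : ℝ) - 1) := by
    have h6 : 1 - 1 / (m : ℝ) = ((m : ℝ) - 1) / m := by field_simp
    rw [h6, inv_div]
    field_simp
    ring
  rw [h5] at h3
  have h8 : Real.exp (-1) ≤ (1 - 1 / (m : ℝ)) ^ (m - 1) := by
    rw [h2, Real.exp_le_exp, h4]
    calc (-1 : ℝ) = ((m : ℝ) - 1) * (-1 / ((m : ℝ) - 1)) := by field_simp
      _ ≤ _ := mul_le_mul_of_nonneg_left h3 h7.le
  have h9 : (1 / 3 : ℝ) ≤ Real.exp (-1) := by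
    rw [Real.exp_neg, one_div]
    apply inv_anti₀ (Real.exp_pos 1)
    linarith [Real.exp_one_lt_d9]
  rw [mul_comm]
  exact mul_le_mul_of_nonneg_left (h9.trans (h8.trans h1)) (by positivity)

/-- additive drift for the expected runtime, lower bound -/
theorem add_drift {V : Type} (hcard : 2 ≤ Fintype.card E) (G : WGraph V E) (x0 : Finset E)
    (S : Finset E → Prop) (hS0 : S x0) (hSn : ∀ x F, S x → S (G.select x F))
    (Φ : Finset E → ℝ) (D : ℝ) (hD : 0 < D) (h0 : ∀ x, S x → 0 ≤ Φ x) (B : ℝ) (hB0 : 0 ≤ B)
    (hB : ∀ x, Φ x ≤ B)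
    (hopt : ∀ x, S x → G.totalWeight x = G.optWeight → Φ x = 0)
    (hdr : ∀ x, S x → G.totalWeight x ≠ G.optWeight →
      ∑ F : Finset E, flipProb F * (Φ x - Φ (G.select x (symmDiff x F))) ≤ D) :
    ENNReal.ofReal (Φ x0 / D) ≤ G.expectedRuntime x0 := by
  classical
  have hfp := flipProb_nonneg (E := E) hcard
  have hoptn : ∀ x y : Finset E, G.totalWeight x = G.optWeight →
      G.totalWeight (G.select x y) = G.optWeight := by
    intro x y h
    unfold WGraph.select
    split_ifs with hy
    · have h1 : G.optWeight ≤ G.totalWeight y := Nat.sInf_le ⟨y, hy.1, rfl⟩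
      have h2 := hy.2
      omega
    · exact h
  set W : Finset E → ℝ := fun x => if S x then Φ x / D else 0 with hW
  have hkey := drift_lower (E := E) (flipMeasure E)
    (fun i ω => ω i) (fun i => measurable_pi_apply i)
    (iIndepFun_infinitePi (P := fun _ : ℕ × E =>
      bernoulliMeasure true false (flipRate E)) (X := fun _ b => b)
      (fun _ => measurable_id))
    hcard (fun i => flip_prob i) G.select
    (fun x => G.totalWeight x = G.optWeight)
    S W (B / D) x0 hS0 hSn hoptn
    (by
      intro x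
      simp only [hW]
      split_ifs with h
      · exact div_nonneg (h0 x h) hD.le
      · exact le_rfl)
    (by
      intro x
      simp only [hW]
      split_ifs with h
      · exact div_le_div_of_nonneg_right (hB x) hD.le
      · positivity)
    (by
      intro x hx
      simp only [hW]
      split_ifs with h
      · rw [hopt x h hx, zero_div]
      · rfl)
    (by
      intro x hx hox
      have h1 := hdr x hx hox
      have h2 : ∀ F : Finset E, flipProb F * W (G.select x (symmDiff x F)) =
          flipProb F * (Φ x / D) -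
            (flipProb F * (Φ x - Φ (G.select x (symmDiff x F)))) / D := by
        intro F
        simp only [hW]
        rw [if_pos (hSn x _ hx)]
        field_simp
        ring
      rw [sum_congr rfl fun F _ => h2 F, sum_sub_distrib, ← sum_mul, sum_flipProb hcard, one_mul,
        ← sum_div]
      simp only [hW]
      rw [if_pos hx]
      have h3 : (∑ F : Finset E, flipProb F * (Φ x - Φ (G.select x (symmDiff x F)))) / D ≤ 1 := by
        rw [div_le_one hD]
        exact h1
      linarith)
  have h1 : W x0 = Φ x0 / D := by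
    simp only [hW]
    rw [if_pos hS0]
  rw [h1] at hkey
  refine hkey.trans (le_of_eq ?_)
  unfold WGraph.expectedRuntime
  refine lintegral_congr fun z => ?_
  rw [runtime_eq]

end Pool.Agent.V5helper67.EC
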