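import Pool.Agent.V5helper67.CK.Moves

open Finset

namespace Pool.Agent.V5helper67.EC

open Pool.Agent.Helper120.EaModel Pool.Agent.V5helper67.EA

theorem tw_swap' {V E : Type} [DecidableEq E] {G : WGraph V E} {x : Finset E} {a b : E}
    (ha : a ∈ x) (hb : b ∉ x) :
    G.totalWeight (insert b (x.erase a)) + G.weight a = G.totalWeight x + G.weight b := by
  unfold WGraph.totalWeight
  rw [sum_insert (fun h => hb (mem_of_mem_erase h))]
  have := add_sum_erase x G.weight ha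
  omega

theorem symm_eq {E : Type} [DecidableEq E] {x : Finset E} {e1 f1 e2 f2 : E} (h1 : e1 ∈ x)
    (h2 : f1 ∉ x) (h3 : e2 ∈ x) (h4 : f2 ∉ x) (h5 : e1 ≠ e2) (h6 : f1 ≠ f2) :
    symmDiff x {e1, f1, e2, f2} = insert f2 ((insert f1 (x.erase e1)).erase e2) := by
  ext a
  simp only [mem_symmDiff, mem_insert, mem_singleton, mem_erase]
  by_cases a1 : a = e1
  · subst a1
    have : a ≠ f1 := fun h => h2 (h ▸ h1)
    have : a ≠ f2 := fun h => h4 (h ▸ h1)
    simp [*]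
  · by_cases a2 : a = e2
    · subst a2
      have : a ≠ f1 := fun h => h2 (h ▸ h3)
      have : a ≠ f2 := fun h => h4 (h ▸ h3)
      simp [*]
    · by_cases a3 : a = f1
      · subst a3
        simp [*]
      · by_cases a4 : a = f2
        · subst a4
          simp [*]
        · simp [*]

namespace Pm

variable {Q : Pm}

theorem R_congr {x y : Finset Q.Ex} {j : Fin Q.L} (h : ∀ e, bl e = some j → (e ∈ x ↔ e ∈ y))
    (i : ℕ) : R x j i ↔ R y j i := by
  constructor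
  · rintro ⟨hi, k, hk⟩
    exact ⟨hi, k, (h _ rfl).1 hk⟩
  · rintro ⟨hi, k, hk⟩
    exact ⟨hi, k, (h _ rfl).2 hk⟩

theorem pos_congr {x y : Finset Q.Ex} {j : Fin Q.L}
    (h : ∀ e, bl e = some j → (e ∈ x ↔ e ∈ y)) : pos x j = pos y j := by
  apply le_antisymm
  · by_cases h1 : pos y j < Q.g
    · exact pos_le ((R_congr h _).2 (R_pos h1))
    · exact pos_le_of.trans (not_lt.1 h1)
  · by_cases h1 : pos x j < Q.g
    · exact pos_le ((R_congr h _).1 (R_pos h1))
    · exact pos_le_of.trans (not_lt.1 h1)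

theorem swap_mem {x : Finset Q.Ex} {j j' : Fin Q.L} (hjj : j ≠ j') {e f : Q.Ex}
    (he : bl e = some j') (hf : bl f = some j') (e' : Q.Ex) (he' : bl e' = some j) :
    e' ∈ insert f (x.erase e) ↔ e' ∈ x := by
  have h1 : e' ≠ e := by
    rintro rfl
    rw [he] at he'
    exact hjj (Option.some.inj he').symm
  have h2 : e' ≠ f := by
    rintro rfl
    rw [hf] at he'
    exact hjj (Option.some.inj he').symm
  simp [h1, h2]

theorem wt_some {e : Q.Ex} {j : Fin Q.L} (h : bl e = some j) :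
    (GG Q).weight e = W0 Q + (3 * Q.g) ^ (Q.L - 1 - j.val) * lw e := by
  show wt e = _
  unfold wt sm
  rw [h]
  simp

theorem gain_lt {x : Finset Q.Ex} {j : Fin Q.L} {e f : Q.Ex} (h : Gain x j e f) :
    (GG Q).totalWeight (insert f (x.erase e)) < (GG Q).totalWeight x := by
  obtain ⟨h1, h2, h3, h4, h5, _, _⟩ := h
  have h6 := tw_swap' (G := GG Q) h1 h2
  rw [wt_some h3, wt_some h4] at h6
  have h7 : (3 * Q.g) ^ (Q.L - 1 - j.val) * lw f < (3 * Q.g) ^ (Q.L - 1 - j.val) * lw e :=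
    Nat.mul_lt_mul_of_pos_left h5 (Nat.pow_pos (by have := Q.hg; omega))
  omega

/-- a gain in one block together with a restart of the next block -/
theorem combine {x : Finset Q.Ex} (hx : St x) {j j' : Fin Q.L} (hjj : j'.val = j.val + 1)
    {e f : Q.Ex} (hG : Gain x j e f) (hR : ¬ R x j' 1) (h0 : 0 < Q.g) (h1 : 1 < Q.g)
    (t : Fin (Q.sl 0)) (k : Fin (Q.rm 1)) :
    se j' ⟨0, h0⟩ t ∈ x ∧ re j' ⟨1, h1⟩ k ∉ x ∧
    (∃ y, y = (GG Q).select x (symmDiff x {e, f, se j' ⟨0, h0⟩ t, re j' ⟨1, h1⟩ k}) ∧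
      pos y j' ≤ 1 ∧ pos y j ≤ pos x j + 1 ∧ ∀ i, i ≠ j → i ≠ j' → pos y i = pos x i) := by
  classical
  obtain ⟨g1, g2, g3, g4, g5, g6, g7⟩ := hG
  have hne : j ≠ j' := by
    intro h
    rw [h] at hjj
    omega
  obtain ⟨y1, hy1⟩ : ∃ y1, y1 = insert f (x.erase e) := ⟨_, rfl⟩
  rw [← hy1] at g6 g7
  have hc1 : ∀ i, i ≠ j → ∀ e', bl e' = some i → (e' ∈ y1 ↔ e' ∈ x) := by
    intro i hi e' he'
    rw [hy1]
    exact swap_mem hi g3 g4 e' he'
  have hR1 : ¬ R y1 j' 1 := by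
    rw [R_congr (hc1 j' hne.symm)]
    exact hR
  obtain ⟨t1, t2, t3⟩ := trig g6 j' hR1 h0 h1 t k
  have b1 : bl (se j' ⟨0, h0⟩ t : Q.Ex) = some j' := rfl
  have b2 : bl (re j' ⟨1, h1⟩ k : Q.Ex) = some j' := rfl
  have t1' := (hc1 j' hne.symm _ b1).1 t1
  have t2' : re j' ⟨1, h1⟩ k ∉ x := fun h => t2 ((hc1 j' hne.symm _ b2).2 h)
  refine ⟨t1', t2', _, rfl, ?_⟩
  obtain ⟨e2, he2⟩ : ∃ e2, e2 = (se j' ⟨0, h0⟩ t : Q.Ex) := ⟨_, rfl⟩
  obtain ⟨f2, hf2⟩ : ∃ f2, f2 = (re j' ⟨1, h1⟩ k : Q.Ex) := ⟨_, rfl⟩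
  rw [← he2] at t1 t1' b1 t3 ⊢
  rw [← hf2] at t2 t2' b2 t3 ⊢
  have d1 : e ≠ e2 := by
    intro h
    rw [h, b1] at g3
    exact hne (Option.some.inj g3).symm
  have d2 : f ≠ f2 := by
    intro h
    rw [h, b2] at g4
    exact hne (Option.some.inj g4).symm
  rw [symm_eq g1 g2 t1' t2' d1 d2, ← hy1]
  have hsel : (GG Q).select x (insert f2 (y1.erase e2)) = insert f2 (y1.erase e2) := by
    unfold WGraph.select
    rw [if_pos]
    refine ⟨t3, ?_⟩
    have w1 := tw_swap' (G := GG Q) g1 g2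
    have w2 := tw_swap' (G := GG Q) t1 t2
    rw [← hy1, wt_some g3, wt_some g4] at w1
    rw [wt_some b1, wt_some b2] at w2
    have l1 : lw e2 = 0 := by rw [he2]; rfl
    have l2 : lw f2 = 3 * Q.g - 1 := by rw [hf2]; rfl
    rw [l1, l2] at w2
    have hj' := j'.2
    have w3 : (3 * Q.g) ^ (Q.L - 1 - j.val) = (3 * Q.g) ^ (Q.L - 1 - j'.val) * (3 * Q.g) := by
      rw [← pow_succ]
      congr 1
      omega
    have w4 : (3 * Q.g) ^ (Q.L - 1 - j.val) * (lw f + 1) ≤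
        (3 * Q.g) ^ (Q.L - 1 - j.val) * lw e := Nat.mul_le_mul_left _ g5
    rw [mul_add, mul_one] at w4
    have w5 : (3 * Q.g) ^ (Q.L - 1 - j'.val) * (3 * Q.g - 1) ≤ (3 * Q.g) ^ (Q.L - 1 - j.val) := by
      rw [w3]
      exact Nat.mul_le_mul_left _ (Nat.sub_le _ _)
    omega
  rw [hsel]
  refine ⟨?_, ?_, ?_⟩
  · apply pos_le
    refine ⟨h1, k, ?_⟩
    rw [hf2]
    exact mem_insert_self _ _
  · rw [pos_congr (swap_mem hne b1 b2)]
    exact g7
  · intro i hij hij'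
    rw [pos_congr (swap_mem hij' b1 b2), pos_congr (hc1 i hij)]

theorem bl_none {e : Q.Ex} (h : bl e = none) : ∃ d, e = Sum.inl (Sum.inr d) := by
  rcases e with (⟨j', ⟨l, t⟩⟩ | d) | ⟨j', ⟨r, q⟩⟩
  · simp [bl] at h
  · exact ⟨d, rfl⟩
  · simp [bl] at h

theorem tw_split (x : Finset Q.Ex) : (GG Q).totalWeight x =
    (x.filter (fun e => bl e = none)).card + (x.filter (fun e => ¬ bl e = none)).card * W0 Q +
      ∑ e ∈ x.filter (fun e => ¬ bl e = none), sm e := by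
  unfold WGraph.totalWeight
  rw [← sum_filter_add_sum_filter_not x (fun e => bl e = none), add_assoc]
  congr 1
  · rw [card_eq_sum_ones]
    refine sum_congr rfl fun e he => ?_
    rw [mem_filter] at he
    show wt e = 1
    unfold wt
    rw [if_pos he.2]
  · rw [← smul_eq_mul, ← sum_const, ← sum_add_distrib]
    refine sum_congr rfl fun e he => ?_
    rw [mem_filter] at he
    show wt e = _
    unfold wt
    rw [if_neg he.2]

theorem St_select {x : Finset Q.Ex} (hx : St x) (y : Finset Q.Ex) : St ((GG Q).select x y) := by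
  classical
  unfold WGraph.select
  split_ifs with h
  · obtain ⟨hy, hw⟩ := h
    refine ⟨hy, ?_⟩
    by_contra hcon
    push Not at hcon
    obtain ⟨d, hd⟩ := hcon
    rw [tw_split, tw_split] at hw
    have hc := tree_card hx.1 hy
    have c1 := card_filter_add_card_filter_not (s := x) (fun e : Q.Ex => bl e = none)
    have c2 := card_filter_add_card_filter_not (s := y) (fun e : Q.Ex => bl e = none)
    have h1 : (y.filter (fun e => bl e = none)).card < (x.filter (fun e => bl e = none)).card := by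
      apply card_lt_card
      rw [ssubset_iff_of_subset]
      · refine ⟨Sum.inl (Sum.inr d), mem_filter.2 ⟨hx.2 d, rfl⟩, ?_⟩
        intro h
        exact hd (mem_filter.1 h).1
      · intro e he
        rw [mem_filter] at he
        obtain ⟨d', rfl⟩ := bl_none he.2
        exact mem_filter.2 ⟨hx.2 d', rfl⟩
    have h2 : ∑ e ∈ x.filter (fun e => ¬ bl e = none), sm e + 2 ≤ W0 Q := by
      unfold W0
      have : ∑ e ∈ x.filter (fun e => ¬ bl e = none), sm e ≤ ∑ e : Q.Ex, sm e :=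
        sum_le_sum_of_subset (subset_univ _)
      omega
    obtain ⟨fx, hfx⟩ : ∃ fx, fx = (x.filter (fun e => bl e = none)).card := ⟨_, rfl⟩
    obtain ⟨fy, hfy⟩ : ∃ fy, fy = (y.filter (fun e => bl e = none)).card := ⟨_, rfl⟩
    obtain ⟨ax, hax⟩ : ∃ ax, ax = (x.filter (fun e => ¬ bl e = none)).card := ⟨_, rfl⟩
    obtain ⟨ay, hay⟩ : ∃ ay, ay = (y.filter (fun e => ¬ bl e = none)).card := ⟨_, rfl⟩
    rw [← hfx, ← hax] at c1
    rw [← hfy, ← hay] at c2
    rw [← hfx, ← hfy] at h1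
    rw [← hfx, ← hfy, ← hax, ← hay] at hw
    obtain ⟨δ, hδ⟩ : ∃ δ, ay = ax + (δ + 1) := ⟨ay - ax - 1, by omega⟩
    have h3 : fx = fy + (δ + 1) := by omega
    subst hδ
    rw [h3, add_mul] at hw
    have h4 : (δ + 1) * W0 Q = δ * W0 Q + W0 Q := by ring
    rw [h4] at hw
    have h5 : δ ≤ δ * W0 Q := Nat.le_mul_of_pos_right _ (by unfold W0; omega)
    omega
  · exact hx

end Pm

end Pool.Agent.V5helper67.EC
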